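import Pool.Agent.Lib.MP_e005b4_ag.GP.Spec

/-!
# Theorem G (general projections): all `r` at once (`StAll`)
-/

set_option autoImplicit false

namespace Pool.Agent.Lib.MP_e005b4_ag.GP

open MvPolynomial Pool.Agent.Lib.MP_e005b4_ag

/-- All `r` at once. -/
theorem gAll (hOne : StOne) (hSpn : StSpn) : StAll := by
  classical
  intro ι _ K m hK hI
  choose P hP0 hP using fun r => hOne ι K r m hK hI
  refine ⟨∏ r ∈ Finset.range (Fintype.card ι), P r,
    Finset.prod_ne_zero_iff.2 fun r _ => hP0 r, fun M hM r => ?_⟩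
  by_cases hr : r < Fintype.card ι
  · refine hP r M ?_
    rw [map_prod, Finset.prod_ne_zero_iff] at hM
    exact hM r (Finset.mem_range.2 hr)
  · obtain ⟨W, hW⟩ := hSpn.1 ι K r hK.scl (not_lt.1 hr)
    have h1 : clc (Sr K r) ⊆ Sr K r := by
      rw [hW]
      exact hSpn.2 ι W
    have h2 : M.mulVec '' Sr K r = ((W.map M.mulVecLin : Submodule ℂ (Fin m → ℂ)) :
        Set (Fin m → ℂ)) := by
      rw [hW, Submodule.map_coe]
      rfl
    refine ⟨fun _ => ?_, fun k _ _ h3 => absurd h1 h3⟩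
    rw [h2]
    exact hSpn.2 (Fin m) _

end Pool.Agent.Lib.MP_e005b4_ag.GP
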