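import Pool.Agent.Lib.MP_e005b4_ag.GP.Spec

/-!
# Theorem G: projective varieties and their cones
-/

set_option autoImplicit false

namespace Pool.Agent.Lib.MP_e005b4_ag.GP

open MvPolynomial Pool.Agent.Lib.MP_e005b4_ag
open scoped LinearAlgebra.Projectivization

private theorem Ba_prime {ι : Type} [Fintype ι] {Y : Set (PSpace ι)} (hY : IsIrred Y) :
    (vIdeal Y).IsPrime := by
  classical
  let _ : GradedRing (homogeneousSubmodule ι ℂ) := MvPolynomial.gradedAlgebra
  have hhom : (vIdeal Y).IsHomogeneous (homogeneousSubmodule ι ℂ) := by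
    intro i F hF
    have h1 := homogeneousComponent_mem hF i
    have h2 : ((DirectSum.decompose (homogeneousSubmodule ι ℂ) F i : homogeneousSubmodule ι ℂ i) :
        MvPolynomial ι ℂ) = homogeneousComponent i F := decomposition.decompose'_apply F i
    rw [h2]
    exact h1
  refine hhom.isPrime_of_homogeneous_mem_or_mem ?_ ?_
  · intro h
    have h1 : (1 : MvPolynomial ι ℂ) ∈ vIdeal Y := by rw [h]; trivial
    rw [mem_vIdeal] at h1
    have h2 := h1 0 (zero_mem_cone Y)
    simp at h2
  · rintro F G ⟨d, hF⟩ ⟨e, hG⟩ hFG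
    rw [mem_vIdeal] at hFG
    rcases hY.2 F G d e hF hG (fun p hp => by
      rw [← map_mul]
      exact hFG p.rep (rep_mem_cone.2 hp)) with h | h
    · left
      exact mem_vIdeal.2 (vanish_on_cone hY.1 hF h)
    · right
      exact mem_vIdeal.2 (vanish_on_cone hY.1 hG h)

/-- A set of points is a projective variety if and only if its cone is closed and irreducible. -/
theorem gBa : StBa := by
  intro ι _ Y hne
  constructor
  · rintro ⟨⟨S, hS, hXS⟩, hirr⟩
    refine ⟨⟨zero_mem_cone Y, ?_⟩, ⟨⟨0, zero_mem_cone Y⟩, ?_⟩⟩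
    · intro v hv h0
      rw [hXS]
      intro F hF
      obtain ⟨d, hd⟩ := hS F hF
      rw [eval_rep_iff hd]
      exact hv F d hd (vanish_on_cone hne hd fun p hp => (hXS p).mp hp F hF)
    · intro F G h
      have hFG : F * G ∈ vIdeal Y := mem_vIdeal.2 fun v hv => by
        rw [map_mul]
        exact h v hv
      rcases (Ba_prime hirr).mem_or_mem hFG with h1 | h1
      · exact Or.inl (mem_vIdeal.1 h1)
      · exact Or.inr (mem_vIdeal.1 h1)
  · rintro ⟨hcl, hirr⟩
    refine ⟨⟨{F | (∃ d, F.IsHomogeneous d) ∧ ∀ y ∈ cone Y, eval y F = 0}, fun F hF => hF.1,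
      fun p => ⟨fun hp F hF => hF.2 _ (rep_mem_cone.2 hp), fun hp => ?_⟩⟩, hne, ?_⟩
    · rw [← rep_mem_cone]
      exact hcl.cl fun F d hF h => hp F ⟨⟨d, hF⟩, h⟩
    · intro F G d e hF hG h
      have h1 : ∀ y ∈ cone Y, eval y (F * G) = 0 :=
        vanish_on_cone hne (hF.mul hG) fun p hp => by
          rw [map_mul]
          exact h p hp
      rcases hirr.2 F G fun y hy => by rw [← map_mul]; exact h1 y hy with h2 | h2
      · exact Or.inl fun p hp => h2 _ (rep_mem_cone.2 hp)
      · exact Or.inr fun p hp => h2 _ (rep_mem_cone.2 hp)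

end Pool.Agent.Lib.MP_e005b4_ag.GP
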