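import Pool.Agent.Lib.MP_e005b4_ag.GP.Defs

/-!
# Theorem G (general projections): closed cones, basic lemmas
-/

set_option autoImplicit false
set_option linter.unusedSectionVars false

namespace Pool.Agent.Lib.MP_e005b4_ag.GP

open MvPolynomial Pool.Agent.Lib.MP_e005b4_ag

variable {ι κ : Type} [Fintype ι] [Fintype κ]

/-- `S` contains `0` and the multiples of its elements. -/
structure Scl (S : Set (ι → ℂ)) : Prop where
  zero : (0 : ι → ℂ) ∈ S
  smul : ∀ y ∈ S, ∀ c : ℂ, c • y ∈ S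

/-- The closure of `S`, for homogeneous polynomials. -/
def clc (S : Set (ι → ℂ)) : Set (ι → ℂ) :=
  {v | ∀ (F : MvPolynomial ι ℂ) (d : ℕ), F.IsHomogeneous d → (∀ y ∈ S, eval y F = 0) →
    eval v F = 0}

/-- Closed cones. -/
structure ClCone (Y : Set (ι → ℂ)) : Prop where
  zero : (0 : ι → ℂ) ∈ Y
  cl : clc Y ⊆ Y

/-- Irreducible sets. -/
def Irr (Y : Set (ι → ℂ)) : Prop :=
  Y.Nonempty ∧ ∀ F G : MvPolynomial ι ℂ, (∀ y ∈ Y, eval y F * eval y G = 0) →
    (∀ y ∈ Y, eval y F = 0) ∨ ∀ y ∈ Y, eval y G = 0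

/-- `m` linear forms have only the zero `0` on `Y` (dimension of the cone `Y` at most `m`). -/
def Ms (Y : Set (ι → ℂ)) (m : ℕ) : Prop :=
  ∃ M : Matrix (Fin m) ι ℂ, ∀ y ∈ Y, M.mulVec y = 0 → y = 0

/-- The dimension of the cone `Y` is `d`. -/
def IsDim (Y : Set (ι → ℂ)) (d : ℕ) : Prop := Ms Y d ∧ ∀ m, Ms Y m → d ≤ m

/-- The `r`-th power of `K`. -/
def pw (K : Set (ι → ℂ)) (r : ℕ) : Set (Fin r × ι → ℂ) := {z | ∀ l, (fun i => z (l, i)) ∈ K}

/-- The sum of `r` vectors. -/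
def Sg [DecidableEq ι] (r : ℕ) : Matrix ι (Fin r × ι) ℂ := fun i p => if p.2 = i then 1 else 0

/-- The sums of `r` elements of `K`. -/
def Sr (K : Set (ι → ℂ)) (r : ℕ) : Set (ι → ℂ) :=
  {v | ∃ z : Fin r → ι → ℂ, (∀ l, z l ∈ K) ∧ v = ∑ l, z l}

theorem subset_clc (S : Set (ι → ℂ)) : S ⊆ clc S := fun v hv _ _ _ h => h v hv

theorem clc_mono {S T : Set (ι → ℂ)} (h : S ⊆ T) : clc S ⊆ clc T :=
  fun _ hv F d hF hT => hv F d hF fun y hy => hT y (h hy)

theorem clc_clc (S : Set (ι → ℂ)) : clc (clc S) = clc S :=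
  Set.Subset.antisymm (fun _ hv F d hF hS => hv F d hF fun y hy => hy F d hF hS) (subset_clc _)

theorem ClCone.eq {Y : Set (ι → ℂ)} (hY : ClCone Y) : clc Y = Y :=
  Set.Subset.antisymm hY.cl (subset_clc Y)

/-- A homogeneous polynomial which separates a point from a closed cone. -/
theorem ClCone.sep {Y : Set (ι → ℂ)} (hY : ClCone Y) {v : ι → ℂ} (hv : v ∉ Y) :
    ∃ (F : MvPolynomial ι ℂ) (d : ℕ), F.IsHomogeneous d ∧ (∀ y ∈ Y, eval y F = 0) ∧
      eval v F ≠ 0 := by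
  by_contra h
  refine hv (hY.cl fun F d hF h0 => ?_)
  by_contra h1
  exact h ⟨F, d, hF, h0, h1⟩

theorem ClCone.scl {Y : Set (ι → ℂ)} (hY : ClCone Y) : Scl Y := by
  refine ⟨hY.zero, fun y hy c => hY.cl fun F d hF h => ?_⟩
  rw [eval_smul_hom hF, h y hy, mul_zero]

theorem Scl.clCone {S : Set (ι → ℂ)} (hS : Scl S) : ClCone (clc S) :=
  ⟨subset_clc S hS.zero, by rw [clc_clc]⟩

/-- The homogeneous components of a polynomial which vanishes on a scaling invariant set. -/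
theorem Scl.hc {S : Set (ι → ℂ)} (hS : Scl S) {F : MvPolynomial ι ℂ}
    (hF : ∀ y ∈ S, eval y F = 0) (n : ℕ) : ∀ y ∈ S, eval y (homogeneousComponent n F) = 0 := by
  classical
  intro v hv
  let P : Polynomial ℂ := ∑ i ∈ Finset.range (F.totalDegree + 1),
    Polynomial.monomial i (eval v (homogeneousComponent i F))
  have hP : ∀ t : ℂ, P.eval t = 0 := by
    intro t
    have h1 : eval (t • v) F = 0 := hF _ (hS.smul v hv t)
    have h2 : F = ∑ i ∈ Finset.range (F.totalDegree + 1), homogeneousComponent i F :=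
      (sum_homogeneousComponent F).symm
    rw [h2, map_sum] at h1
    rw [← h1]
    simp only [P, Polynomial.eval_finsetSum, Polynomial.eval_monomial]
    refine Finset.sum_congr rfl fun i _ => ?_
    rw [eval_smul_hom (homogeneousComponent_isHomogeneous i F)]
    ring
  have hP0 : P = 0 := Polynomial.funext (fun t => by simpa using hP t)
  by_cases hn : n < F.totalDegree + 1
  · have h3 : P.coeff n = eval v (homogeneousComponent n F) := by
      simp only [P, Polynomial.finsetSum_coeff, Polynomial.coeff_monomial]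
      rw [Finset.sum_ite_eq' ]
      simp [Finset.mem_range.mpr hn]
    rw [← h3, hP0, Polynomial.coeff_zero]
  · rw [homogeneousComponent_eq_zero]
    · simp
    · omega

/-- If some point of `S` is not a zero of `F`, some homogeneous component does not vanish. -/
theorem exists_hc {F : MvPolynomial ι ℂ} {v : ι → ℂ} (h : eval v F ≠ 0) :
    ∃ n, eval v (homogeneousComponent n F) ≠ 0 := by
  by_contra hc
  push Not at hc
  refine h ?_
  rw [← sum_homogeneousComponent F, map_sum]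
  exact Finset.sum_eq_zero fun i _ => hc i

/-- Polynomials (not only homogeneous ones) which vanish on a scaling invariant set vanish on the
closure. -/
theorem Scl.vanish {S : Set (ι → ℂ)} (hS : Scl S) {F : MvPolynomial ι ℂ}
    (hF : ∀ y ∈ S, eval y F = 0) : ∀ y ∈ clc S, eval y F = 0 := by
  intro y hy
  by_contra h
  obtain ⟨n, hn⟩ := exists_hc h
  exact hn (hy _ n (homogeneousComponent_isHomogeneous n F) (hS.hc hF n))

/-- The vanishing ideal. -/
noncomputable def vI (Y : Set (ι → ℂ)) : Ideal (MvPolynomial ι ℂ) := vanishingIdeal ℂ Y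

theorem mem_vI {Y : Set (ι → ℂ)} {F : MvPolynomial ι ℂ} :
    F ∈ vI Y ↔ ∀ v ∈ Y, eval v F = 0 := by
  unfold vI
  rw [mem_vanishingIdeal_iff]
  simp [aeval_eq_eval]

theorem Irr.prime {Y : Set (ι → ℂ)} (hY : Irr Y) : (vI Y).IsPrime := by
  refine ⟨fun h => ?_, fun {F G} h => ?_⟩
  · obtain ⟨y, hy⟩ := hY.1
    have h1 : (1 : MvPolynomial ι ℂ) ∈ vI Y := by rw [h]; trivial
    have h2 := mem_vI.1 h1 y hy
    rw [map_one] at h2
    exact one_ne_zero h2
  · rw [mem_vI] at h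
    rw [mem_vI, mem_vI]
    refine hY.2 F G fun y hy => ?_
    rw [← map_mul]
    exact h y hy

/-- The pull back of polynomials along the linear map with matrix `M`. -/
noncomputable def pb (M : Matrix κ ι ℂ) : MvPolynomial κ ℂ →ₐ[ℂ] MvPolynomial ι ℂ :=
  aeval fun k => ∑ i, C (M k i) * X i

theorem eval_lin (a : ι → ℂ) (v : ι → ℂ) : eval v (∑ i, C (a i) * X i) = ∑ i, a i * v i := by
  rw [map_sum]
  exact Finset.sum_congr rfl fun i _ => by rw [map_mul, eval_C, eval_X]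

theorem lin_hom (a : ι → ℂ) : (∑ i, C (a i) * X i : MvPolynomial ι ℂ).IsHomogeneous 1 := by
  refine IsHomogeneous.sum _ _ _ fun i _ => ?_
  have h2 := (isHomogeneous_C ι (a i)).mul (isHomogeneous_X ℂ i)
  rwa [zero_add] at h2

theorem eval_pb (M : Matrix κ ι ℂ) (F : MvPolynomial κ ℂ) (v : ι → ℂ) :
    eval v (pb M F) = eval (M.mulVec v) F := by
  have h1 : (eval v : MvPolynomial ι ℂ →+* ℂ).comp (pb M : MvPolynomial κ ℂ →+* MvPolynomial ι ℂ)
      = eval (M.mulVec v) := by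
    refine MvPolynomial.ringHom_ext (fun c => ?_) fun k => ?_
    · simp [pb]
    · simp only [RingHom.comp_apply, RingHom.coe_coe, pb, aeval_X, eval_lin, eval_X]
      rfl
  exact RingHom.congr_fun h1 F

theorem pb_hom (M : Matrix κ ι ℂ) {F : MvPolynomial κ ℂ} {d : ℕ} (hF : F.IsHomogeneous d) :
    (pb M F).IsHomogeneous d := by
  have h := hF.aeval (fun k => ∑ i, C (M k i) * X i) (n := 1) fun k => lin_hom (M k)
  rwa [one_mul] at h

theorem Scl.image {S : Set (ι → ℂ)} (hS : Scl S) (M : Matrix κ ι ℂ) :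
    Scl (M.mulVec '' S) := by
  refine ⟨⟨0, hS.zero, Matrix.mulVec_zero M⟩, ?_⟩
  rintro _ ⟨y, hy, rfl⟩ c
  exact ⟨c • y, hS.smul y hy c, Matrix.mulVec_smul M c y⟩

/-- The image of the closure is in the closure of the image. -/
theorem image_clc (S : Set (ι → ℂ)) (M : Matrix κ ι ℂ) :
    M.mulVec '' (clc S) ⊆ clc (M.mulVec '' S) := by
  rintro _ ⟨y, hy, rfl⟩ F d hF h
  rw [← eval_pb]
  refine hy _ d (pb_hom M hF) fun z hz => ?_
  rw [eval_pb]
  exact h _ ⟨z, hz, rfl⟩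

theorem Irr.image {Y : Set (ι → ℂ)} (hY : Irr Y) (M : Matrix κ ι ℂ) : Irr (M.mulVec '' Y) := by
  refine ⟨hY.1.image _, fun F G h => ?_⟩
  rcases hY.2 (pb M F) (pb M G) (fun y hy => by
    rw [eval_pb, eval_pb]; exact h _ ⟨y, hy, rfl⟩) with h1 | h1
  · left
    rintro _ ⟨y, hy, rfl⟩
    rw [← eval_pb]
    exact h1 y hy
  · right
    rintro _ ⟨y, hy, rfl⟩
    rw [← eval_pb]
    exact h1 y hy

theorem Irr.cl {S : Set (ι → ℂ)} (hS : Irr S) (hc : Scl S) : Irr (clc S) := by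
  refine ⟨hS.1.mono (subset_clc S), fun F G h => ?_⟩
  rcases hS.2 F G fun y hy => h y (subset_clc S hy) with h1 | h1
  · exact Or.inl (hc.vanish h1)
  · exact Or.inr (hc.vanish h1)

theorem exists_dim (Y : Set (ι → ℂ)) : ∃ d, IsDim Y d := by
  classical
  have h : ∃ m, Ms Y m := by
    refine ⟨Fintype.card ι, (fun k i => if i = (Fintype.equivFin ι).symm k then 1 else 0),
      fun y _ h => ?_⟩
    funext i
    have h1 := congrFun h (Fintype.equivFin ι i)
    simpa [Matrix.mulVec, dotProduct] using h1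
  exact ⟨Nat.find h, Nat.find_spec h, fun m hm => Nat.find_min' h hm⟩

theorem Ms.mono {Y : Set (ι → ℂ)} {m m' : ℕ} (h : Ms Y m) (hm : m ≤ m') : Ms Y m' := by
  obtain ⟨M, hM⟩ := h
  refine ⟨fun k i => if hk : k.1 < m then M ⟨k.1, hk⟩ i else 0, fun y hy h0 => hM y hy ?_⟩
  funext k
  have h1 := congrFun h0 ⟨k.1, lt_of_lt_of_le k.2 hm⟩
  simpa [Matrix.mulVec, dotProduct, k.2] using h1

theorem Ms.subset {Y Y' : Set (ι → ℂ)} {m : ℕ} (h : Ms Y' m) (hY : Y ⊆ Y') : Ms Y m := by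
  obtain ⟨M, hM⟩ := h
  exact ⟨M, fun y hy => hM y (hY hy)⟩

theorem Sr_scl {K : Set (ι → ℂ)} (hK : Scl K) (r : ℕ) : Scl (Sr K r) := by
  refine ⟨⟨0, fun _ => hK.zero, by simp⟩, ?_⟩
  rintro _ ⟨z, hz, rfl⟩ c
  exact ⟨fun l => c • z l, fun l => hK.smul _ (hz l) c, by rw [Finset.smul_sum]⟩

theorem Sg_mulVec [DecidableEq ι] (r : ℕ) (z : Fin r × ι → ℂ) :
    (Sg r).mulVec z = ∑ l, fun i => z (l, i) := by
  funext i
  rw [Finset.sum_apply]
  simp only [Matrix.mulVec, dotProduct, Sg, Fintype.sum_prod_type]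
  refine Finset.sum_congr rfl fun l _ => ?_
  simp

theorem Sr_eq [DecidableEq ι] (K : Set (ι → ℂ)) (r : ℕ) : Sr K r = (Sg r).mulVec '' pw K r := by
  ext v
  constructor
  · rintro ⟨z, hz, rfl⟩
    exact ⟨fun p => z p.1 p.2, hz, Sg_mulVec r _⟩
  · rintro ⟨z, hz, rfl⟩
    exact ⟨fun l i => z (l, i), hz, Sg_mulVec r z⟩

theorem pw_scl {K : Set (ι → ℂ)} (hK : Scl K) (r : ℕ) : Scl (pw K r) :=
  ⟨fun _ => hK.zero, fun _ hz c l => hK.smul _ (hz l) c⟩

theorem Sr_image (M : Matrix κ ι ℂ) (K : Set (ι → ℂ)) (r : ℕ) :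
    Sr (M.mulVec '' K) r = M.mulVec '' Sr K r := by
  ext v
  constructor
  · rintro ⟨z, hz, rfl⟩
    choose y hy hyz using hz
    refine ⟨∑ l, y l, ⟨y, hy, rfl⟩, ?_⟩
    rw [← Matrix.mulVecLin_apply, map_sum]
    exact Finset.sum_congr rfl fun l _ => by rw [Matrix.mulVecLin_apply, hyz]
  · rintro ⟨_, ⟨z, hz, rfl⟩, rfl⟩
    refine ⟨fun l => M.mulVec (z l), fun l => ⟨z l, hz l, rfl⟩, ?_⟩
    rw [← Matrix.mulVecLin_apply, map_sum]
    rfl

/-- The projection from a line through a point which is not in the image. -/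
theorem drop_line {S : Set (ι → ℂ)} (hS : Scl S) {d : ℕ} (M : Matrix (Fin d) ι ℂ)
    (hM : ∀ y ∈ S, M.mulVec y = 0 → y = 0) (w : Fin d → ℂ) (hw : ∀ y ∈ S, M.mulVec y ≠ w) :
    ∃ e, d = e + 1 ∧ Ms S e := by
  classical
  have hw0 : w ≠ 0 := by
    rintro rfl
    exact hw 0 hS.zero (Matrix.mulVec_zero M)
  obtain ⟨k0, hk0⟩ : ∃ k, w k ≠ 0 := by
    by_contra h
    push Not at h
    exact hw0 (funext h)
  obtain ⟨e, rfl⟩ : ∃ e, d = e + 1 := ⟨d - 1, by have := k0.pos; omega⟩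
  refine ⟨e, rfl, fun k i => M (k0.succAbove k) i - w (k0.succAbove k) / w k0 * M k0 i,
    fun y hy h => ?_⟩
  have h1 : ∀ k, M.mulVec y k = (M.mulVec y k0 / w k0) * w k := by
    intro k
    rcases Fin.eq_self_or_eq_succAbove k0 k with rfl | ⟨j, rfl⟩
    · rw [div_mul_cancel₀ _ hk0]
    · have h2 := congrFun h j
      simp only [Matrix.mulVec, dotProduct, sub_mul, Finset.sum_sub_distrib, Pi.zero_apply,
        mul_assoc, ← Finset.mul_sum] at h2
      have h3 := sub_eq_zero.1 h2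
      change (∑ i, M (k0.succAbove j) i * y i) = (∑ i, M k0 i * y i) / w k0 * w (k0.succAbove j)
      rw [h3]
      ring
  by_cases hc : M.mulVec y k0 / w k0 = 0
  · refine hM y hy (funext fun k => ?_)
    rw [h1 k, hc, zero_mul]
    rfl
  · exfalso
    refine hw ((M.mulVec y k0 / w k0)⁻¹ • y) (hS.smul y hy _) ?_
    rw [Matrix.mulVec_smul]
    funext k
    rw [Pi.smul_apply, smul_eq_mul, h1 k, inv_mul_cancel_left₀ hc]

end Pool.Agent.Lib.MP_e005b4_ag.GP
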