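import Pool.Agent.Lib.MP_e005b4_ag.GP.Spec

/-!
# Theorem G: the cones of secant sets and secant varieties
-/

set_option autoImplicit false

namespace Pool.Agent.Lib.MP_e005b4_ag.GP

open MvPolynomial Pool.Agent.Lib.MP_e005b4_ag
open scoped LinearAlgebra.Projectivization

private theorem Bb_scl {ι : Type} [Fintype ι] (X : Set (PSpace ι)) : Scl (cone X) :=
  ⟨zero_mem_cone X, fun _ hy c => smul_mem_cone hy c⟩

private theorem Bb_one {ι : Type} [Fintype ι] (X : Set (PSpace ι)) (r : ℕ) :
    cone (secantSet X r) = Sr (cone X) r := by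
  ext v
  by_cases hv : v = 0
  · subst hv
    exact ⟨fun _ => (Sr_scl (Bb_scl X) r).zero, fun _ => zero_mem_cone _⟩
  · obtain ⟨c, hc, hrep⟩ := rep_eq v hv
    rw [mem_cone_iff hv]
    constructor
    · intro h
      obtain ⟨z, hz, hsum⟩ := exists_sum_of_mem_secantSet h
      refine ⟨fun l => c⁻¹ • z l, fun l => smul_mem_cone (hz l) _, ?_⟩
      rw [← Finset.smul_sum, ← hsum, hrep, smul_smul, inv_mul_cancel₀ hc, one_smul]
    · rintro ⟨z, hz, hsum⟩
      refine mem_secantSet_of_sum' (fun l => c • z l) (fun l => smul_mem_cone (hz l) _) _ ?_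
      rw [← Finset.smul_sum, ← hsum, hrep]

private theorem Bb_closure {ι : Type} [Fintype ι] (T : Set (PSpace ι))
    (hT : ∀ F : MvPolynomial ι ℂ, ∀ d, F.IsHomogeneous d → (∀ q ∈ T, eval q.rep F = 0) →
      ∀ v ∈ clc (cone T), v ≠ 0 → eval v F = 0) :
    cone (zariskiClosure T) = clc (cone T) := by
  ext v
  by_cases hv : v = 0
  · subst hv
    exact ⟨fun _ => subset_clc _ (zero_mem_cone _), fun _ => zero_mem_cone _⟩
  · rw [mem_cone_iff hv]
    constructor
    · intro h F d hF h0
      rw [← eval_rep_iff hF v hv]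
      exact h F d hF fun q hq => h0 _ (rep_mem_cone.2 hq)
    · intro h F d hF h0
      rw [eval_rep_iff hF v hv]
      exact hT F d hF h0 v h hv

/-- The cones of the secant sets and of the secant varieties. -/
theorem gBb : StBb := by
  intro ι _ X hne r
  refine ⟨Bb_one X r, ?_⟩
  rw [← Bb_one X r]
  refine Bb_closure _ fun F d hF h0 v hv hv0 => ?_
  rcases Nat.eq_zero_or_pos r with rfl | hr
  · exfalso
    apply hv0
    funext i
    have h1 := hv (MvPolynomial.X i) 1 (isHomogeneous_X ℂ i) (by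
      intro y hy
      rw [Bb_one] at hy
      obtain ⟨z, -, rfl⟩ := hy
      rw [eval_X, Finset.univ_eq_empty, Finset.sum_empty]
      rfl)
    rw [eval_X] at h1
    exact h1
  · have hT : (secantSet X r).Nonempty := by
      obtain ⟨p, hp⟩ := hne
      refine ⟨p, secantSet_mono ⟨p, hp⟩ hr ?_⟩
      rw [Nat.succ_eq_add_one, zero_add, secantSet_one]
      exact hp
    exact hv F d hF (vanish_on_cone hT hF h0)

end Pool.Agent.Lib.MP_e005b4_ag.GP
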