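import Pool.Agent.Lib.MP_e005b4_ag.GP.Spec

/-!
# Theorem G (general projections): from projective varieties to cones, `StBc`
-/

set_option autoImplicit false
set_option linter.unusedSectionVars false

namespace Pool.Agent.Lib.MP_e005b4_ag.GP

open MvPolynomial Pool.Agent.Lib.MP_e005b4_ag
open scoped LinearAlgebra.Projectivization

private theorem Bc_cone {ι : Type} [Fintype ι] {Y Y' : Set (PSpace ι)} :
    cone Y ⊆ cone Y' ↔ Y ⊆ Y' := by
  constructor
  · intro h p hp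
    exact rep_mem_cone.1 (h (rep_mem_cone.2 hp))
  · intro h v hv hv0
    exact h (hv hv0)

private theorem Bc_one (hBb : StBb) (ι : Type) [Fintype ι] (Y : Set (PSpace ι))
    (hY : Y.Nonempty) :
    (∀ q, xRank Y q = xBorderRank Y q) ↔ ∀ r, clc (Sr (cone Y) r) ⊆ Sr (cone Y) r := by
  have h1 : ∀ r, clc (Sr (cone Y) r) ⊆ Sr (cone Y) r ↔ secantVariety Y r ⊆ secantSet Y r := by
    intro r
    obtain ⟨h2, h3⟩ := hBb ι Y hY r
    rw [← h3, ← h2, Bc_cone]
  constructor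
  · intro h r
    rw [h1]
    intro q hq
    exact (xRank_le_iff hY).1 ((h q).trans_le ((xBorderRank_le_iff hY).2 hq))
  · intro h q
    exact rank_eq_of_secant (fun r => (h1 r).1 (h r)) q

private theorem Bc_two (ι : Type) [Fintype ι] (Y : Set (PSpace ι)) (m : ℕ) :
    DimLT Y m ↔ Ms (cone Y) m := by
  constructor
  · rintro ⟨M, hM⟩
    refine ⟨M, fun y hy h0 => ?_⟩
    by_contra hy0
    obtain ⟨c, _, h⟩ := rep_eq y hy0
    refine hM _ (hy hy0) ?_
    rw [h, Matrix.mulVec_smul, h0, smul_zero]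
  · rintro ⟨M, hM⟩
    exact ⟨M, fun p hp h0 => p.rep_nonzero (hM _ (rep_mem_cone.2 hp) h0)⟩

private theorem Bc_three (ι : Type) [Fintype ι] (X : Set (PSpace ι)) (m : ℕ)
    (M : Matrix (Fin m) ι ℂ) (hX : X.Nonempty) (hM : ∀ y ∈ cone X, M.mulVec y = 0 → y = 0) :
    (proj M X).Nonempty ∧ cone (proj M X) = M.mulVec '' cone X := by
  constructor
  · obtain ⟨p, hp⟩ := hX
    have h1 : M.mulVec p.rep ≠ 0 := fun h => p.rep_nonzero (hM _ (rep_mem_cone.2 hp) h)
    obtain ⟨c, _, h⟩ := rep_eq (M.mulVec p.rep) h1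
    exact ⟨Projectivization.mk ℂ (M.mulVec p.rep) h1, p, hp, c, h⟩
  · refine Set.Subset.antisymm ?_ ?_
    · intro v hv
      by_cases hv0 : v = 0
      · exact ⟨0, zero_mem_cone X, by rw [Matrix.mulVec_zero, hv0]⟩
      · obtain ⟨p, hp, c, h⟩ := hv hv0
        obtain ⟨a, ha, h2⟩ := rep_eq v hv0
        refine ⟨(a⁻¹ * c) • p.rep, smul_mem_cone (rep_mem_cone.2 hp) _, ?_⟩
        rw [Matrix.mulVec_smul, mul_smul, ← h, h2, smul_smul, inv_mul_cancel₀ ha, one_smul]
    · rintro _ ⟨y, hy, rfl⟩ hv0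
      have hy0 : y ≠ 0 := by
        rintro rfl
        exact hv0 (Matrix.mulVec_zero M)
      obtain ⟨a, _, h⟩ := rep_eq (M.mulVec y) hv0
      obtain ⟨b, hb, h2⟩ := rep_eq y hy0
      refine ⟨Projectivization.mk ℂ y hy0, hy hy0, a * b⁻¹, ?_⟩
      rw [h, h2, Matrix.mulVec_smul, smul_smul, mul_assoc, inv_mul_cancel₀ hb, mul_one]

/-- From projective varieties to cones. -/
theorem gBc (hBb : StBb) : StBc := ⟨Bc_one hBb, Bc_two, Bc_three⟩

end Pool.Agent.Lib.MP_e005b4_ag.GP
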