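import Pool.Agent.Lib.MP_e005b4_ag.GP.Spec

/-!
# Theorem G: the image of a closed cone
-/

set_option autoImplicit false
set_option linter.unusedSectionVars false

namespace Pool.Agent.Lib.MP_e005b4_ag.GP

open MvPolynomial Pool.Agent.Lib.MP_e005b4_ag

/-- The image of a closed cone under a linear map without zeros. -/
theorem gC (hEl : StEl) : StC := by
  classical
  intro ι κ _ _ Y M hY hM
  have hS : Scl (M.mulVec '' Y) := hY.scl.image M
  refine ⟨hS.zero, fun w hw => ?_⟩
  by_contra hwY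
  have hw0 : w ≠ 0 := by
    rintro rfl
    exact hwY hS.zero
  obtain ⟨j0, hj0⟩ : ∃ j, w j ≠ 0 := by
    by_contra hc
    push Not at hc
    exact hw0 (funext hc)
  let L : κ × κ → ι → MvPolynomial κ ℂ := fun p i => X p.1 * C (M p.2 i) - X p.2 * C (M p.1 i)
  have hL : ∀ (t : κ → ℂ) (y : ι → ℂ) (p : κ × κ), ∑ i, eval t (L p i) * y i =
      t p.1 * M.mulVec y p.2 - t p.2 * M.mulVec y p.1 := by
    intro t y p
    simp only [Matrix.mulVec, dotProduct, Finset.mul_sum]
    rw [← Finset.sum_sub_distrib]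
    refine Finset.sum_congr rfl fun i _ => ?_
    simp only [L, map_sub, map_mul, eval_X, eval_C]
    ring
  obtain ⟨P, hP1, hP2⟩ := hEl ι κ (κ × κ) Y L w hY (fun y hy h => by
    have h1 : M.mulVec y = (M.mulVec y j0 / w j0) • w := by
      funext k
      have h2 := h (j0, k)
      rw [hL] at h2
      rw [Pi.smul_apply, smul_eq_mul]
      field_simp
      linear_combination h2
    by_cases hl : M.mulVec y j0 / w j0 = 0
    · rw [hl, zero_smul] at h1
      exact hM y hy h1
    · exfalso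
      refine hwY ⟨(M.mulVec y j0 / w j0)⁻¹ • y, hY.scl.smul y hy _, ?_⟩
      rw [Matrix.mulVec_smul, h1, smul_smul]
      rw [← h1, inv_mul_cancel₀ hl, one_smul])
  by_cases hne : ∃ y ∈ Y, y ≠ 0
  · obtain ⟨y1, hy1, hy1'⟩ := hne
    refine hP1 (hS.vanish ?_ w hw)
    rintro _ ⟨y, hy, rfl⟩
    by_contra hc
    have h1 : y = 0 := hP2 _ hc y hy fun p => by rw [hL]; ring
    rw [h1, Matrix.mulVec_zero] at hc
    exact hy1' (hP2 0 hc y1 hy1 fun p => by rw [hL]; simp)
  · push Not at hne
    refine hw0 (funext fun k => ?_)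
    have h1 := hw (X k) 1 (isHomogeneous_X ℂ k) (by
      rintro _ ⟨y, hy, rfl⟩
      rw [hne y hy, Matrix.mulVec_zero, eval_X]
      rfl)
    rwa [eval_X] at h1

end Pool.Agent.Lib.MP_e005b4_ag.GP
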