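import Pool.Agent.Lib.MP_e005b4_ag.GP.Spec

/-!
# Theorem G (general projections): Chevalley for the image of a closed cone
-/

set_option autoImplicit false

namespace Pool.Agent.Lib.MP_e005b4_ag.GP

open MvPolynomial Pool.Agent.Lib.MP_e005b4_ag

/-- the ideal of a point is the kernel of the evaluation -/
private lemma ChA_point {τ : Type} [Finite τ] (I : Ideal (MvPolynomial τ ℂ))
    (hI : I.IsMaximal) : ∃ y : τ → ℂ, ∀ P ∈ I, eval y P = 0 := by
  obtain ⟨y, hy⟩ := (MvPolynomial.isMaximal_iff_eq_vanishingIdeal_singleton).1 hI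
  refine ⟨y, fun P hP => ?_⟩
  rw [hy] at hP
  have := (MvPolynomial.mem_vanishingIdeal_singleton_iff y P).1 hP
  simpa using this

theorem gChA : StChA := by
  classical
  intro ι κ _ _ Z h hZ hI
  haveI hprime : (vI Z).IsPrime := hI.prime
  set φ : MvPolynomial ι ℂ →+* MvPolynomial κ ℂ ⧸ vI Z :=
    (Ideal.Quotient.mk (vI Z)).comp (pb h : MvPolynomial ι ℂ →+* MvPolynomial κ ℂ) with hφ
  have hφ0 : ∀ P : MvPolynomial ι ℂ, φ P = 0 ↔ ∀ v ∈ h.mulVec '' Z, eval v P = 0 := by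
    intro P
    rw [hφ, RingHom.comp_apply, Ideal.Quotient.eq_zero_iff_mem, mem_vI]
    constructor
    · rintro h1 _ ⟨y, hy, rfl⟩
      rw [← eval_pb]
      exact h1 y hy
    · intro h1 y hy
      have h2 := h1 _ ⟨y, hy, rfl⟩
      rw [← eval_pb] at h2
      exact h2
  have hft : φ.FiniteType := by
    refine RingHom.FiniteType.of_comp_finiteType (f := algebraMap ℂ (MvPolynomial ι ℂ)) ?_
    have h1 : φ.comp (algebraMap ℂ (MvPolynomial ι ℂ)) =
        algebraMap ℂ (MvPolynomial κ ℂ ⧸ vI Z) := by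
      refine RingHom.ext fun z => ?_
      rw [hφ, RingHom.comp_apply, RingHom.comp_apply, RingHom.coe_coe, AlgHom.commutes]
      rfl
    rw [h1]
    exact RingHom.finiteType_algebraMap.2 inferInstance
  have hfp : φ.FinitePresentation := RingHom.FinitePresentation.of_finiteType.1 hft
  have hcon := PrimeSpectrum.isConstructible_range_comap hfp
  obtain ⟨S, hS⟩ := PrimeSpectrum.exists_constructibleSetData_iff.2 hcon
  -- the generic point
  set η : PrimeSpectrum (MvPolynomial ι ℂ) := PrimeSpectrum.comap φ ⊥ with hη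
  have hηS : η ∈ S.toSet := by
    rw [hS]
    exact ⟨⊥, rfl⟩
  rw [PrimeSpectrum.ConstructibleSetData.toSet, Set.mem_iUnion₂] at hηS
  obtain ⟨C, hCS, hηC⟩ := hηS
  have hηmem : ∀ P : MvPolynomial ι ℂ, P ∈ η.asIdeal ↔ φ P = 0 := by
    intro P
    rw [hη, PrimeSpectrum.comap_asIdeal, Ideal.mem_comap]
    change φ P ∈ (⊥ : Ideal (MvPolynomial κ ℂ ⧸ vI Z)) ↔ _
    rw [Ideal.mem_bot]
  obtain ⟨hη1, hη2⟩ := hηC
  rw [PrimeSpectrum.mem_zeroLocus] at hη1 hη2
  have hη3 : φ C.f ≠ 0 := by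
    intro h0
    exact hη2 (Set.singleton_subset_iff.2 ((hηmem _).2 h0))
  refine ⟨C.f, ?_, fun x hx hxf => ?_⟩
  · by_contra hcon2
    push Not at hcon2
    exact hη3 ((hφ0 _).2 fun v hv => hcon2 v (subset_clc _ hv))
  -- the maximal ideal of the point `x`
  set p : Ideal (MvPolynomial ι ℂ) := RingHom.ker (eval x : MvPolynomial ι ℂ →+* ℂ) with hp
  have hpmax : p.IsMaximal :=
    RingHom.ker_isMaximal_of_surjective _ fun z => ⟨MvPolynomial.C z, by simp⟩
  have hpmem : ∀ P : MvPolynomial ι ℂ, P ∈ p ↔ eval x P = 0 := fun P => RingHom.mem_ker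
  have hpS : (⟨p, hpmax.isPrime⟩ : PrimeSpectrum (MvPolynomial ι ℂ)) ∈ S.toSet := by
    rw [PrimeSpectrum.ConstructibleSetData.toSet, Set.mem_iUnion₂]
    refine ⟨C, hCS, ?_, ?_⟩
    · rw [PrimeSpectrum.mem_zeroLocus]
      intro P hP
      exact (hpmem P).2 ((hZ.scl.image h).vanish ((hφ0 P).1 ((hηmem P).1 (hη1 hP))) x hx)
    · rw [PrimeSpectrum.mem_zeroLocus]
      intro hcon
      exact hxf ((hpmem _).1 (hcon rfl))
  rw [hS] at hpS
  obtain ⟨q, hq⟩ := hpS
  obtain ⟨M, hM, hqM⟩ := Ideal.exists_le_maximal q.asIdeal q.isPrime.ne_top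
  haveI := hM
  have hM2 : (M.comap (Ideal.Quotient.mk (vI Z))).IsMaximal :=
    Ideal.comap_isMaximal_of_surjective (Ideal.Quotient.mk (vI Z)) Ideal.Quotient.mk_surjective
  obtain ⟨y, hy⟩ := ChA_point _ hM2
  have hyZ : y ∈ Z := by
    by_contra hyZ
    obtain ⟨F, d, -, hF, hFy⟩ := hZ.sep hyZ
    apply hFy
    apply hy
    rw [Ideal.mem_comap, Ideal.Quotient.eq_zero_iff_mem.2 (mem_vI.2 hF)]
    exact zero_mem M
  have hqp : ∀ P ∈ p, φ P ∈ q.asIdeal := by
    intro P hP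
    have h1 : (PrimeSpectrum.comap φ q).asIdeal = p := by rw [hq]
    rw [← h1] at hP
    exact hP
  refine ⟨y, hyZ, funext fun s => ?_⟩
  have h2 : (X s - MvPolynomial.C (x s) : MvPolynomial ι ℂ) ∈ p := by
    rw [hpmem]
    simp
  have h3 := hy (pb h (X s - MvPolynomial.C (x s))) (hqM (hqp _ h2))
  rw [eval_pb, map_sub, eval_X, eval_C] at h3
  exact sub_eq_zero.1 h3

end Pool.Agent.Lib.MP_e005b4_ag.GP
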