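import Pool.Agent.Lib.MP_e005b4_ag.GP.Spec

/-!
# Theorem G, module ChB (task 17799)
-/

set_option autoImplicit false

namespace Pool.Agent.Lib.MP_e005b4_ag.GP

open MvPolynomial Pool.Agent.Lib.MP_e005b4_ag

/-- If a homogeneous component of `Q` is not zero at `v`, then `Q (t v)` is not zero for some
`t` which is not zero. -/
theorem ChB_ray {ι : Type} [Fintype ι] (Q : MvPolynomial ι ℂ) (v : ι → ℂ) (k : ℕ)
    (hk : eval v (homogeneousComponent k Q) ≠ 0) : ∃ t : ℂ, t ≠ 0 ∧ eval (t • v) Q ≠ 0 := by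
  classical
  let P : Polynomial ℂ := ∑ i ∈ Finset.range (Q.totalDegree + 1),
    Polynomial.monomial i (eval v (homogeneousComponent i Q))
  have hP : ∀ t : ℂ, P.eval t = eval (t • v) Q := by
    intro t
    conv_rhs => rw [← sum_homogeneousComponent Q, map_sum]
    simp only [P, Polynomial.eval_finsetSum, Polynomial.eval_monomial]
    refine Finset.sum_congr rfl fun i _ => ?_
    rw [eval_smul_hom (homogeneousComponent_isHomogeneous i Q)]
    ring
  have hn : k < Q.totalDegree + 1 := by
    by_contra hn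
    rw [homogeneousComponent_eq_zero _ _ (by omega)] at hk
    exact hk (map_zero _)
  have hc : P.coeff k = eval v (homogeneousComponent k Q) := by
    simp only [P, Polynomial.finsetSum_coeff, Polynomial.coeff_monomial]
    rw [Finset.sum_ite_eq']
    simp [Finset.mem_range.mpr hn]
  have hP0 : P * Polynomial.X ≠ 0 := by
    refine mul_ne_zero ?_ Polynomial.X_ne_zero
    intro h
    rw [h, Polynomial.coeff_zero] at hc
    exact hk hc.symm
  by_contra hcon
  push Not at hcon
  refine hP0 (Polynomial.funext fun t => ?_)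
  rw [Polynomial.eval_mul, Polynomial.eval_X, Polynomial.eval_zero, hP]
  by_cases ht : t = 0
  · rw [ht, mul_zero]
  · rw [hcon t ht, zero_mul]

theorem gChB (hChA : StChA) : StChB := by
  intro ι κ _ _ Z h hZ hI hs
  obtain ⟨Q, ⟨v0, hv0, hQ0⟩, hQ⟩ := hChA ι κ Z h hZ hI
  have hsc : Scl (h.mulVec '' Z) := hZ.scl.image h
  have hcl : ClCone (clc (h.mulVec '' Z)) := hsc.clCone
  obtain ⟨k, hk⟩ := exists_hc hQ0
  have hhom : (homogeneousComponent k Q).IsHomogeneous k := homogeneousComponent_isHomogeneous k Q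
  refine ⟨{v | v ∈ clc (h.mulVec '' Z) ∧ ∀ i, v i * eval v (homogeneousComponent k Q) = 0},
    ⟨⟨hcl.zero, fun i => by rw [Pi.zero_apply, zero_mul]⟩, ?_⟩, fun v hv => hv.1, ?_, ?_⟩
  · intro v hv
    refine ⟨hcl.cl (clc_mono (fun y hy => hy.1) hv), fun i => ?_⟩
    have h1 := hv (X i * homogeneousComponent k Q) (1 + k) ((isHomogeneous_X ℂ i).mul hhom)
      (fun y hy => by
        rw [map_mul, eval_X]
        exact hy.2 i)
    rw [map_mul, eval_X] at h1
    exact h1
  · intro hB
    have hall : ∀ v ∈ clc (h.mulVec '' Z), ∀ i, v i * eval v (homogeneousComponent k Q) = 0 := by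
      intro v hv
      rw [← hB] at hv
      exact hv.2
    have h0 : v0 = 0 := by
      funext i
      rcases mul_eq_zero.1 (hall v0 hv0 i) with h1 | h1
      · exact h1
      · exact absurd h1 hk
    rw [h0] at hk
    have h2 : ∀ v : ι → ℂ, eval v (homogeneousComponent k Q) ≠ 0 := by
      intro v hv
      have h3 := eval_smul_hom hhom (0 : ℂ) v
      rw [zero_smul, hv, mul_zero] at h3
      exact hk h3
    refine hs (Set.eq_singleton_iff_unique_mem.2 ⟨hcl.zero, fun v hv => ?_⟩)
    funext i
    rcases mul_eq_zero.1 (hall v hv i) with h1 | h1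
    · exact h1
    · exact absurd h1 (h2 v)
  · intro v hv hvB
    have h1 : eval v (homogeneousComponent k Q) ≠ 0 := by
      intro h1
      exact hvB ⟨hv, fun i => by rw [h1, mul_zero]⟩
    obtain ⟨t, ht, hQt⟩ := ChB_ray Q v k h1
    have h2 := hQ (t • v) (hcl.scl.smul v hv t) hQt
    have h3 := hsc.smul _ h2 t⁻¹
    rwa [smul_smul, inv_mul_cancel₀ ht, one_smul] at h3

end Pool.Agent.Lib.MP_e005b4_ag.GP
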