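import Pool.Agent.Lib.MP_e005b4_ag.GP.Spec

/-!
# Theorem G (general projections): Dd
-/

set_option autoImplicit false

namespace Pool.Agent.Lib.MP_e005b4_ag.GP

open MvPolynomial Pool.Agent.Lib.MP_e005b4_ag

open Classical in
private noncomputable def Dd_h {ι : Type} [Fintype ι] (y : ι → ℂ) : Matrix ι (Option ι) ℂ :=
  fun i o => Option.elim o (-y i) fun j => if i = j then 1 else 0

private theorem Dd_mulVec {ι : Type} [Fintype ι] (y : ι → ℂ) (z : Option ι → ℂ) :
    (Dd_h y).mulVec z = (fun i => z (some i)) - z none • y := by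
  classical
  funext i
  simp only [Matrix.mulVec, dotProduct, Dd_h, Fintype.sum_option, Option.elim, Pi.sub_apply,
    Pi.smul_apply, smul_eq_mul, ite_mul, one_mul, zero_mul, Finset.sum_ite_eq, Finset.mem_univ,
    if_true]
  ring

theorem gDd (hPl : StPl) (hLe : StLe) (hGa : StGa) : StDd := by
  intro ι _ S s y k m hs hirr hSs hyS hk hkm
  obtain ⟨hZ, hZi, hZm⟩ := hPl ι s hs hirr
  have hc : ClCone (clc ((Dd_h y).mulVec '' {z : Option ι → ℂ | (fun i => z (some i)) ∈ s})) :=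
    (hZ.scl.image _).clCone
  have hms := (hLe ι (Option ι) _ (Dd_h y) (k + 1) hZ hZi (hZm k hk)).mono hkm
  obtain ⟨P, hP0, hP⟩ := hGa ι _ m hc hms
  refine ⟨P, hP0, fun M hM => ?_⟩
  rintro ⟨z, hzS, hz⟩
  have h1 : z - y ∈ clc ((Dd_h y).mulVec '' {z : Option ι → ℂ | (fun i => z (some i)) ∈ s}) := by
    refine subset_clc _ ⟨fun o => Option.elim o 1 z, hSs hzS, ?_⟩
    rw [Dd_mulVec]
    simp
  have h2 := hP M hM _ h1 (by rw [Matrix.mulVec_sub, hz, sub_self])
  exact hyS (by rw [← sub_eq_zero.1 h2]; exact hzS)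

end Pool.Agent.Lib.MP_e005b4_ag.GP
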