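import Pool.Agent.Lib.MP_e005b4_ag.Sec.Basic

/-!
# Projections of projective varieties
-/

set_option autoImplicit false

namespace Pool.Agent.Lib.MP_e005b4_ag

open MvPolynomial
open scoped LinearAlgebra.Projectivization

variable {ι : Type} [Fintype ι]

/-- The image of `X` under the projection with the matrix `M`: the points `[M x]`, `x ∈ X`,
`M x ≠ 0`. -/
def proj {m : ℕ} (M : Matrix (Fin m) ι ℂ) (X : Set (PSpace ι)) : Set (PSpace (Fin m)) :=
  {q | ∃ p ∈ X, ∃ c : ℂ, q.rep = c • M.mulVec p.rep}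

/-- `dim Y < m`: some linear subspace of codimension at most `m` (the common zeros of `m` linear
forms) does not meet `Y`. -/
def DimLT (Y : Set (PSpace ι)) (m : ℕ) : Prop :=
  ∃ M : Matrix (Fin m) ι ℂ, ∀ p ∈ Y, M.mulVec p.rep ≠ 0

end Pool.Agent.Lib.MP_e005b4_ag
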