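import Pool.Agent.Lib.MP_e005b4_ag.GP.Spec

/-!
# Theorem G: the dimension of a proper closed subcone
-/

set_option autoImplicit false
set_option linter.unusedSectionVars false

namespace Pool.Agent.Lib.MP_e005b4_ag.GP

open MvPolynomial Pool.Agent.Lib.MP_e005b4_ag

/-- Proper closed subcones have smaller dimension. -/
theorem gDim (hInt : StInt) : StDim := by
  intro ι _ B Y d hB hY hYi hBY hne hd
  obtain ⟨M, hM⟩ := hd
  obtain ⟨y1, hy1, hy1B⟩ : ∃ y ∈ Y, y ∉ B := by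
    by_contra hc
    push Not at hc
    exact hne (Set.Subset.antisymm hBY hc)
  obtain ⟨F, _, _, hFB, hFy⟩ := hB.sep hy1B
  have hI := hInt ι (Fin d) Y M hY hM
  have hprime := hYi.prime
  set f : MvPolynomial (Fin d) ℂ →+* MvPolynomial ι ℂ ⧸ vI Y := (Ideal.Quotient.mk (vI Y)).comp
    (pb M : MvPolynomial (Fin d) ℂ →+* MvPolynomial ι ℂ) with hf
  have hdom : IsDomain (MvPolynomial ι ℂ ⧸ vI Y) := Ideal.Quotient.isDomain (vI Y)
  let _ : Algebra (MvPolynomial (Fin d) ℂ) (MvPolynomial ι ℂ ⧸ vI Y) := f.toAlgebra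
  have hx : Ideal.Quotient.mk (vI Y) F ≠ 0 := by
    intro h
    rw [Ideal.Quotient.eq_zero_iff_mem, mem_vI] at h
    exact hFy (h y1 hy1)
  have hne' := Ideal.comap_ne_bot_of_integral_mem (R := MvPolynomial (Fin d) ℂ)
    (I := (vI B).map (Ideal.Quotient.mk (vI Y))) hx
    (Ideal.mem_map_of_mem _ (mem_vI.2 hFB)) (hI _)
  obtain ⟨c, hc, hc0⟩ := (Submodule.ne_bot_iff _).1 hne'
  have hle : vI Y ≤ vI B := fun G hG => mem_vI.2 fun v hv => mem_vI.1 hG v (hBY hv)
  have hc1 : pb M c ∈ vI B := by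
    have h1 : Ideal.Quotient.mk (vI Y) (pb M c) ∈ (vI B).map (Ideal.Quotient.mk (vI Y)) := hc
    obtain ⟨G, hG, hG'⟩ := (Ideal.mem_map_iff_of_surjective _
      Ideal.Quotient.mk_surjective).1 h1
    have h2 := hle (Ideal.Quotient.eq.1 hG'.symm)
    have h3 := (vI B).add_mem h2 hG
    rwa [sub_add_cancel] at h3
  obtain ⟨w, hw⟩ : ∃ w, eval w c ≠ 0 := by
    by_contra hcon
    push Not at hcon
    exact hc0 (MvPolynomial.funext fun x => by rw [hcon x, map_zero])
  refine drop_line hB.scl M (fun y hy => hM y (hBY hy)) w fun y hy hyw => hw ?_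
  rw [← hyw, ← eval_pb]
  exact mem_vI.1 hc1 y hy

end Pool.Agent.Lib.MP_e005b4_ag.GP
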