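import Pool.Agent.Lib.MP_e005b4_ag.GP.Spec

/-!
# Theorem G: elimination
-/

set_option autoImplicit false
set_option linter.unusedSectionVars false

namespace Pool.Agent.Lib.MP_e005b4_ag.GP

open MvPolynomial Pool.Agent.Lib.MP_e005b4_ag

section

variable {ι κ τ : Type} [Fintype ι] [Fintype κ]

/-- The exponents of degree `s`. -/
private noncomputable def El_T (ι : Type) [Fintype ι] (s : ℕ) : Finset (ι →₀ ℕ) := by
  classical exact Finset.univ.finsuppAntidiag s

private theorem El_mem {s : ℕ} {α : ι →₀ ℕ} : α ∈ El_T ι s ↔ ∑ i, α i = s := by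
  classical
  unfold El_T
  rw [Finset.mem_finsuppAntidiag]
  exact ⟨fun h => h.1, fun h => ⟨h, Finset.subset_univ _⟩⟩

/-- The linear form with coefficients `a`. -/
private noncomputable def El_l (a : ι → ℂ) : MvPolynomial ι ℂ := ∑ i, C (a i) * X i

/-- All monomials of large degree are in an ideal whose only zero is `0`. -/
private theorem El_mono {J : Ideal (MvPolynomial ι ℂ)}
    (h : ∀ v : ι → ℂ, (∀ F ∈ J, eval v F = 0) → v = 0) :
    ∃ s : ℕ, ∀ α : ι →₀ ℕ, ∑ i, α i = s + 1 → monomial α (1 : ℂ) ∈ J := by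
  classical
  have hrad : ∀ i, ∃ N : ℕ, (X i : MvPolynomial ι ℂ) ^ N ∈ J := by
    intro i
    have h1 : (X i : MvPolynomial ι ℂ) ∈ J.radical := by
      rw [← vanishingIdeal_zeroLocus_eq_radical (K := ℂ) J, mem_vanishingIdeal_iff]
      intro v hv
      rw [mem_zeroLocus_iff] at hv
      have h2 := h v fun F hF => by rw [← aeval_eq_eval]; exact hv F hF
      rw [aeval_X, h2]
      rfl
    exact h1
  choose N hN using hrad
  refine ⟨(∑ i, N i) * Fintype.card ι, fun α hα => ?_⟩
  obtain ⟨i, hi⟩ : ∃ i, N i ≤ α i := by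
    by_contra hc
    push Not at hc
    have h1 : ∑ i, α i ≤ ∑ _i : ι, ∑ j, N j := Finset.sum_le_sum fun i _ =>
      (hc i).le.trans (Finset.single_le_sum (fun j _ => Nat.zero_le (N j)) (Finset.mem_univ i))
    rw [Finset.sum_const, Finset.card_univ, smul_eq_mul] at h1
    have h2 := h1
    rw [hα, mul_comm] at h2
    omega
  have h1 : monomial α (1 : ℂ) = monomial (α - Finsupp.single i (N i)) 1 * X i ^ N i := by
    rw [X_pow_eq_monomial, monomial_mul, one_mul, tsub_add_cancel_of_le]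
    exact Finsupp.single_le_iff.2 hi
  rw [h1]
  exact J.mul_mem_left _ (hN i)

/-- The value of a homogeneous component. -/
private theorem El_eval_hc (F : MvPolynomial ι ℂ) (s : ℕ) (y : ι → ℂ) :
    eval y (homogeneousComponent s F) = ∑ β ∈ El_T ι s, coeff β F * ∏ i, y i ^ β i := by
  classical
  rw [homogeneousComponent_apply, map_sum]
  have h0 : ∀ β : ι →₀ ℕ, β.degree = ∑ i, β i := fun β => by
    rw [Finsupp.degree_eq_sum]
  have h1 : ∀ β : ι →₀ ℕ, eval y (monomial β (coeff β F)) = coeff β F * ∏ i, y i ^ β i :=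
    fun β => by
      rw [eval_monomial, Finsupp.prod_fintype]
      exact fun i => pow_zero _
  simp only [h1]
  refine Finset.sum_subset (fun β hβ => ?_) fun β hβ hβ' => ?_
  · rw [Finset.mem_filter] at hβ
    rw [El_mem, ← h0]
    exact hβ.2
  · have h2 : coeff β F = 0 := by
      by_contra hne
      refine hβ' (Finset.mem_filter.2 ⟨mem_support_iff.2 hne, ?_⟩)
      rw [h0]
      exact El_mem.1 hβ
    rw [h2, zero_mul]

/-- The polynomial for the parameter `t`. -/
private noncomputable def El_F (L : κ → ι → MvPolynomial τ ℂ) (G : MvPolynomial ι ℂ)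
    (B : κ → MvPolynomial ι ℂ) (t : τ → ℂ) : MvPolynomial ι ℂ :=
  G + ∑ k, B k * El_l fun i => eval t (L k i)

/-- The coefficients as polynomials in the parameter. -/
private noncomputable def El_c (L : κ → ι → MvPolynomial τ ℂ) (G : MvPolynomial ι ℂ)
    (B : κ → MvPolynomial ι ℂ) (β : ι →₀ ℕ) : MvPolynomial τ ℂ :=
  C (coeff β G) + ∑ k, ∑ i, C (coeff β (B k * X i)) * L k i

private theorem El_eval_c (L : κ → ι → MvPolynomial τ ℂ) (G : MvPolynomial ι ℂ)
    (B : κ → MvPolynomial ι ℂ) (β : ι →₀ ℕ) (t : τ → ℂ) :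
    eval t (El_c L G B β) = coeff β (El_F L G B t) := by
  unfold El_c El_F El_l
  rw [map_add, eval_C, coeff_add, map_sum, coeff_sum]
  congr 1
  refine Finset.sum_congr rfl fun k _ => ?_
  rw [map_sum, Finset.mul_sum, coeff_sum]
  refine Finset.sum_congr rfl fun i _ => ?_
  rw [map_mul, eval_C, mul_left_comm, coeff_C_mul, mul_comm]

private theorem El_zero {Y : Set (ι → ℂ)} (hY : Scl Y) (L : κ → ι → MvPolynomial τ ℂ)
    {G : MvPolynomial ι ℂ} (hG : G ∈ vI Y) (B : κ → MvPolynomial ι ℂ) (t : τ → ℂ) {y : ι → ℂ}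
    (hy : y ∈ Y) (h : ∀ k, ∑ i, eval t (L k i) * y i = 0) (s : ℕ) :
    eval y (homogeneousComponent s (El_F L G B t)) = 0 := by
  have hS : Scl {z : ι → ℂ | ∃ c : ℂ, z = c • y} := ⟨⟨0, (zero_smul ℂ y).symm⟩, by
    rintro _ ⟨c, rfl⟩ c'
    exact ⟨c' * c, smul_smul c' c y⟩⟩
  refine hS.hc (F := El_F L G B t) ?_ s y ⟨1, (one_smul ℂ y).symm⟩
  rintro _ ⟨c, rfl⟩
  unfold El_F El_l
  rw [map_add, mem_vI.1 hG _ (hY.smul y hy c), zero_add, map_sum]
  refine Finset.sum_eq_zero fun k _ => ?_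
  rw [map_mul, eval_lin]
  have h1 : ∑ i, eval t (L k i) * (c • y) i = c * ∑ i, eval t (L k i) * y i := by
    rw [Finset.mul_sum]
    refine Finset.sum_congr rfl fun i _ => ?_
    rw [Pi.smul_apply, smul_eq_mul]
    ring
  rw [h1, h k, mul_zero, mul_zero]

end

/-- Elimination. -/
theorem gEl : StEl := by
  classical
  intro ι τ κ _ _ Y L t0 hY h0
  let J : Ideal (MvPolynomial ι ℂ) :=
    vI Y ⊔ Ideal.span (Set.range fun k => El_l fun i => eval t0 (L k i))
  obtain ⟨s, hs⟩ := El_mono (J := J) (fun v hv => by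
    refine h0 v (hY.cl fun F d _ hF => ?_) fun k => ?_
    · exact hv F ((le_sup_left : vI Y ≤ J) (mem_vI.2 hF))
    · have h1 := hv (El_l fun i => eval t0 (L k i))
        ((le_sup_right : _ ≤ J) (Ideal.subset_span ⟨k, rfl⟩))
      unfold El_l at h1
      rwa [eval_lin] at h1)
  have hGB : ∀ α : El_T ι (s + 1), ∃ (G : MvPolynomial ι ℂ) (B : κ → MvPolynomial ι ℂ),
      G ∈ vI Y ∧ El_F L G B t0 = monomial α.1 1 := by
    intro α
    obtain ⟨G, hG, H, hH, hGH⟩ := Submodule.mem_sup.1 (hs α.1 (El_mem.1 α.2))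
    obtain ⟨B, hB⟩ := Ideal.mem_span_range_iff_exists_fun.1 hH
    refine ⟨G, B, hG, ?_⟩
    unfold El_F
    rw [hB]
    exact hGH
  choose G B hG hB using hGB
  let N : Matrix (El_T ι (s + 1)) (El_T ι (s + 1)) (MvPolynomial τ ℂ) :=
    fun α β => El_c L (G α) (B α) β.1
  have hN : ∀ t α β, N.map (eval t) α β = coeff β.1 (El_F L (G α) (B α) t) := fun t α β =>
    El_eval_c L (G α) (B α) β.1 t
  have hdet : ∀ t, eval t N.det = (N.map (eval t)).det := fun t => RingHom.map_det (eval t) N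
  refine ⟨N.det, ?_, fun t ht y hy hyt => ?_⟩
  · have h1 : N.map (eval t0) = 1 := by
      refine Matrix.ext fun α β => ?_
      rw [hN, hB, coeff_monomial, Matrix.one_apply]
      by_cases h : α = β
      · rw [if_pos h, if_pos (congrArg Subtype.val h)]
      · rw [if_neg h, if_neg fun h' => h (Subtype.ext h')]
    rw [hdet, h1, Matrix.det_one]
    exact one_ne_zero
  · have h1 : (N.map (eval t)).mulVec (fun β => ∏ i, y i ^ β.1 i) = 0 := by
      funext α
      have h2 := El_zero hY.scl L (hG α) (B α) t hy hyt (s + 1)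
      rw [El_eval_hc, ← Finset.sum_coe_sort] at h2
      rw [Pi.zero_apply, ← h2, Matrix.mulVec, dotProduct]
      exact Finset.sum_congr rfl fun β _ => by rw [hN]
    have h2 := Matrix.eq_zero_of_mulVec_eq_zero (hdet t ▸ ht) h1
    funext i
    have h3 : Finsupp.single i (s + 1) ∈ El_T ι (s + 1) := by
      rw [El_mem, Finset.sum_eq_single i]
      · exact Finsupp.single_eq_same
      · intro j _ hj
        exact Finsupp.single_eq_of_ne hj
      · intro h
        exact absurd (Finset.mem_univ i) h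
    have h4 := congrFun h2 ⟨_, h3⟩
    have h5 : ∏ j, y j ^ (Finsupp.single i (s + 1) : ι →₀ ℕ) j = y i ^ (s + 1) := by
      rw [Finset.prod_eq_single i]
      · rw [Finsupp.single_eq_same]
      · intro j _ hj
        rw [Finsupp.single_eq_of_ne hj, pow_zero]
      · intro h
        exact absurd (Finset.mem_univ i) h
    change ∏ j, y j ^ (Finsupp.single i (s + 1) : ι →₀ ℕ) j = 0 at h4
    rw [h5] at h4
    exact pow_eq_zero_iff (Nat.succ_ne_zero s) |>.1 h4

end Pool.Agent.Lib.MP_e005b4_ag.GP
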