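import Pool.Agent.Lib.MP_e005b4_ag.GP.Spec

/-!
# Theorem G (general projections): the theorem for projective varieties
-/

set_option autoImplicit false

namespace Pool.Agent.Lib.MP_e005b4_ag.GP

open MvPolynomial Pool.Agent.Lib.MP_e005b4_ag
open scoped LinearAlgebra.Projectivization

private theorem GM_sub {ι : Type} [Fintype ι] (A B : Set (PSpace ι)) :
    cone A ⊆ cone B ↔ A ⊆ B := by
  constructor
  · intro h p hp
    exact rep_mem_cone.1 (h (rep_mem_cone.2 hp))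
  · intro h v hv hv0
    exact h (hv hv0)

private theorem GM_sec (hBb : StBb) {ι : Type} [Fintype ι] {X : Set (PSpace ι)}
    (hX : X.Nonempty) (r : ℕ) :
    secantVariety X r ⊆ secantSet X r ↔ clc (Sr (cone X) r) ⊆ Sr (cone X) r := by
  rw [← (hBb ι X hX r).2, ← (hBb ι X hX r).1, GM_sub]

theorem gGM (hGa : StGa) (hC : StC) (hAll : StAll) (hBa : StBa) (hBb : StBb) (hBc : StBc) :
    StGM := by
  intro ι _ X m hX hD
  have hne : X.Nonempty := hX.2.1
  obtain ⟨hK, hI⟩ := (hBa ι X hne).1 hX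
  obtain ⟨P1, hP1, h1⟩ := hGa ι (cone X) m hK ((hBc.2.1 ι X m).1 hD)
  obtain ⟨P2, hP2, h2⟩ := hAll ι (cone X) m hK hI
  refine ⟨P1 * P2, mul_ne_zero hP1 hP2, fun M hM => ?_⟩
  rw [map_mul] at hM
  have k1 := h1 M (left_ne_zero_of_mul hM)
  have k2 := h2 M (right_ne_zero_of_mul hM)
  obtain ⟨hne', hcone⟩ := hBc.2.2 ι X m M hne k1
  refine ⟨fun p hp h0 => p.rep_nonzero (k1 p.rep (rep_mem_cone.2 hp) h0), ?_, ?_, ?_⟩
  · refine (hBa (Fin m) (proj M X) hne').2 ?_
    rw [hcone]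
    exact ⟨hC ι (Fin m) (cone X) M hK k1, hI.image M⟩
  · intro h
    refine (hBc.1 (Fin m) (proj M X) hne').2 fun r => ?_
    rw [hcone, Sr_image]
    refine (k2 r).1 fun hMs => (GM_sec hBb hne r).1 (h r ?_)
    refine (hBc.2.1 ι (secantVariety X r) m).2 ?_
    rw [(hBb ι X hne r).2]
    exact hMs
  · intro r k hk hDk hns hq
    have h3 := (hBc.1 (Fin m) (proj M X) hne').1 hq r
    rw [hcone, Sr_image] at h3
    refine (k2 r).2 k hk ?_ (fun h => hns ((GM_sec hBb hne r).2 h)) h3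
    have h4 := (hBc.2.1 ι (secantVariety X r) k).1 hDk
    rwa [(hBb ι X hne r).2] at h4

end Pool.Agent.Lib.MP_e005b4_ag.GP
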