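import Pool.Agent.Lib.MP_e005b4_ag.GP.Spec

/-!
# Theorem G: generic linear maps
-/

set_option autoImplicit false
set_option linter.unusedSectionVars false

namespace Pool.Agent.Lib.MP_e005b4_ag.GP

open MvPolynomial Pool.Agent.Lib.MP_e005b4_ag

/-- Generic linear maps have no zeros. -/
theorem gGa (hEl : StEl) : StGa := by
  intro ι _ Y m hY hm
  obtain ⟨M0, hM0⟩ := hm
  obtain ⟨P, hP1, hP2⟩ := hEl ι (Fin m × ι) (Fin m) Y (fun k i => X (k, i))
    (fun p => M0 p.1 p.2) hY (fun y hy h => hM0 y hy (funext fun k => by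
      have h1 := h k
      simp only [eval_X] at h1
      exact h1))
  refine ⟨P, fun h => hP1 (by rw [h, map_zero]), fun M hM y hy h => hP2 _ hM y hy fun k => ?_⟩
  have h1 := congrFun h k
  simp only [eval_X]
  exact h1

/-- Surjectivity. -/
theorem gGb : StGb := by
  intro ι _ Y d M hY hd hM w
  by_contra hc
  push Not at hc
  obtain ⟨e, rfl, he⟩ := drop_line hY M hM w hc
  have := hd.2 e he
  omega

end Pool.Agent.Lib.MP_e005b4_ag.GP
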