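import Pool.Agent.Lib.MP_e005b4_ag.GP.Spec

/-!
# Theorem G: integrality of the coordinate ring
-/

set_option autoImplicit false
set_option linter.unusedSectionVars false

namespace Pool.Agent.Lib.MP_e005b4_ag.GP

open MvPolynomial Pool.Agent.Lib.MP_e005b4_ag

section

variable {ι κ : Type} [Fintype ι] [Fintype κ]

/-- The leading coefficient of a homogeneous polynomial in one of the variables. -/
private theorem Int_lead {e : ℕ} {H : MvPolynomial (Option κ) ℂ} (hH : H.IsHomogeneous e)
    (hw : eval (fun o : Option κ => o.elim (1 : ℂ) fun _ => 0) H ≠ 0) :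
    ∃ c : ℂ, c ≠ 0 ∧ (optionEquivLeft ℂ κ H).coeff e = C c ∧
      (optionEquivLeft ℂ κ H).natDegree ≤ e := by
  classical
  refine ⟨H.coeff (Finsupp.single none e), fun h0 => hw ?_, ?_, ?_⟩
  · rw [eval_eq']
    refine Finset.sum_eq_zero fun d hd => ?_
    by_cases hk : ∃ k, d (some k) ≠ 0
    · obtain ⟨k, hk⟩ := hk
      rw [Finset.prod_eq_zero (Finset.mem_univ (some k)), mul_zero]
      exact zero_pow hk
    · push Not at hk
      have h1 : d.degree = e := by
        by_contra hne
        exact mem_support_iff.1 hd (hH.coeff_eq_zero hne)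
      rw [Finsupp.degree_eq_sum, Fintype.sum_option, Finset.sum_eq_zero fun k _ => hk k,
        add_zero] at h1
      have h2 : d = Finsupp.single none e := by
        refine Finsupp.ext fun o => ?_
        cases o with
        | none => rw [h1, Finsupp.single_eq_same]
        | some k => rw [hk k, Finsupp.single_eq_of_ne (by simp)]
      rw [h2, h0, zero_mul]
  · refine MvPolynomial.ext _ _ fun d => ?_
    rw [optionEquivLeft_coeff_coeff, coeff_C]
    by_cases hd : 0 = d
    · rw [if_pos hd, ← hd]
      have h5 : (0 : κ →₀ ℕ).optionElim e = Finsupp.single none e := by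
        refine Finsupp.ext fun o => ?_
        cases o with
        | none => rw [Finsupp.single_eq_same, Finsupp.optionElim_apply_none]
        | some k =>
          rw [Finsupp.single_eq_of_ne (by simp), Finsupp.optionElim_apply_some,
            Finsupp.zero_apply]
      rw [h5]
    · rw [if_neg hd]
      refine hH.coeff_eq_zero fun h => hd ?_
      rw [Finsupp.degree_eq_sum, Fintype.sum_option, Finsupp.optionElim_apply_none] at h
      have h3 : ∑ k, (d.optionElim e) (some k) = 0 := by omega
      refine (Finsupp.ext fun k => ?_).symm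
      have h4 := (Finset.sum_eq_zero_iff.1 h3) k (Finset.mem_univ k)
      rwa [Finsupp.optionElim_apply_some] at h4
  · rw [natDegree_optionEquivLeft]
    exact (degreeOf_le_totalDegree _ _).trans hH.totalDegree_le

/-- The coordinates are integral. -/
private theorem Int_X (hC : StC) (Y : Set (ι → ℂ)) (M : Matrix κ ι ℂ) (hY : ClCone Y)
    (hM : ∀ y ∈ Y, M.mulVec y = 0 → y = 0) (i : ι) :
    ((Ideal.Quotient.mk (vI Y)).comp
      (pb M : MvPolynomial κ ℂ →+* MvPolynomial ι ℂ)).IsIntegralElem
        (Ideal.Quotient.mk (vI Y) (X i)) := by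
  classical
  let M' : Matrix (Option κ) ι ℂ := fun o j => o.elim (if j = i then 1 else 0) fun k => M k j
  have h1 : ∀ y k, M'.mulVec y (some k) = M.mulVec y k := fun y k => rfl
  have h2 : ∀ y, M'.mulVec y none = y i := fun y => by
    change ∑ j, (if j = i then (1 : ℂ) else 0) * y j = y i
    simp
  have hM' : ∀ y ∈ Y, M'.mulVec y = 0 → y = 0 := fun y hy h => hM y hy (funext fun k => by
    rw [← h1]
    exact congrFun h (some k))
  have hcl := hC ι (Option κ) Y M' hY hM'
  let w : Option κ → ℂ := fun o => o.elim (1 : ℂ) fun _ => 0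
  have hw : w ∉ M'.mulVec '' Y := by
    rintro ⟨y, hy, hyw⟩
    have h3 : y = 0 := hM y hy (funext fun k => by
      rw [← h1, hyw]
      rfl)
    have h4 := h2 y
    rw [hyw, h3] at h4
    exact one_ne_zero h4
  obtain ⟨H, e, hH, hH0, hHw⟩ := hcl.sep hw
  obtain ⟨c, hc, hlead, hdeg⟩ := Int_lead hH hHw
  set f : MvPolynomial κ ℂ →+* MvPolynomial ι ℂ ⧸ vI Y := (Ideal.Quotient.mk (vI Y)).comp
    (pb M : MvPolynomial κ ℂ →+* MvPolynomial ι ℂ) with hf
  have hev : (Polynomial.eval₂RingHom f (Ideal.Quotient.mk (vI Y) (X i))).comp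
      (optionEquivLeft ℂ κ : MvPolynomial (Option κ) ℂ →+* Polynomial (MvPolynomial κ ℂ)) =
      (Ideal.Quotient.mk (vI Y)).comp
        (pb M' : MvPolynomial (Option κ) ℂ →+* MvPolynomial ι ℂ) := by
    refine MvPolynomial.ringHom_ext (fun a => ?_) fun o => ?_
    · change Polynomial.eval₂ f _ (optionEquivLeft ℂ κ (C a)) =
        Ideal.Quotient.mk (vI Y) (pb M' (C a))
      rw [optionEquivLeft_C, Polynomial.eval₂_C]
      change Ideal.Quotient.mk (vI Y) (pb M (C a)) = _
      rw [algHom_C, algHom_C]
    · change Polynomial.eval₂ f _ (optionEquivLeft ℂ κ (X o)) =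
        Ideal.Quotient.mk (vI Y) (pb M' (X o))
      cases o with
      | none =>
        rw [optionEquivLeft_X_none, Polynomial.eval₂_X, pb, aeval_X]
        congr 1
        change X i = ∑ j, C (if j = i then (1 : ℂ) else 0) * X j
        simp
      | some k =>
        rw [optionEquivLeft_X_some, Polynomial.eval₂_C]
        change Ideal.Quotient.mk (vI Y) (pb M (X k)) = _
        rw [pb, pb, aeval_X, aeval_X]
        rfl
  refine ⟨Polynomial.C (C c⁻¹) * optionEquivLeft ℂ κ H,
    Polynomial.monic_of_natDegree_le_of_coeff_eq_one e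
      ((Polynomial.natDegree_C_mul_le _ _).trans hdeg) ?_, ?_⟩
  · rw [Polynomial.coeff_C_mul, hlead, ← C_mul, inv_mul_cancel₀ hc, C_1]
  · rw [Polynomial.eval₂_mul]
    have h3 : Polynomial.eval₂ f (Ideal.Quotient.mk (vI Y) (X i)) (optionEquivLeft ℂ κ H) =
        Ideal.Quotient.mk (vI Y) (pb M' H) := RingHom.congr_fun hev H
    have h4 : Ideal.Quotient.mk (vI Y) (pb M' H) = 0 := by
      rw [Ideal.Quotient.eq_zero_iff_mem, mem_vI]
      intro v hv
      rw [eval_pb]
      exact hH0 _ ⟨v, hv, rfl⟩
    rw [h3, h4, mul_zero]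

end

/-- The coordinate ring is integral. -/
theorem gInt (hC : StC) : StInt := by
  intro ι κ _ _ Y M hY hM x
  obtain ⟨F, rfl⟩ := Ideal.Quotient.mk_surjective x
  induction F using MvPolynomial.induction_on with
  | C a =>
    have h1 : Ideal.Quotient.mk (vI Y) (C a) = ((Ideal.Quotient.mk (vI Y)).comp
        (pb M : MvPolynomial κ ℂ →+* MvPolynomial ι ℂ)) (C a) := by
      change _ = Ideal.Quotient.mk (vI Y) (pb M (C a))
      rw [algHom_C]
      rfl
    rw [h1]
    exact RingHom.isIntegralElem_map _
  | add p q hp hq =>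
    rw [map_add]
    exact RingHom.IsIntegralElem.add _ hp hq
  | mul_X p i hp =>
    rw [map_mul]
    exact RingHom.IsIntegralElem.mul _ hp (Int_X hC Y M hY hM i)

end Pool.Agent.Lib.MP_e005b4_ag.GP
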