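import Pool.Agent.Lib.MP_e005b4_ag.GP.Spec

/-!
# Theorem G (general projections): products of irreducible sets
-/

set_option autoImplicit false

namespace Pool.Agent.Lib.MP_e005b4_ag.GP

open MvPolynomial

/-- Fix the variables of the second kind. -/
private noncomputable def Irp_l {ι κ : Type} (z : κ → ℂ) :
    MvPolynomial (ι ⊕ κ) ℂ →ₐ[ℂ] MvPolynomial ι ℂ :=
  aeval (Sum.elim X fun k => C (z k))

private theorem Irp_l_eval {ι κ : Type} (z : κ → ℂ) (x : ι → ℂ) (F : MvPolynomial (ι ⊕ κ) ℂ) :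
    eval x (Irp_l z F) = eval (Sum.elim x z) F := by
  have h1 : (eval x : MvPolynomial ι ℂ →+* ℂ).comp
      (Irp_l z : MvPolynomial (ι ⊕ κ) ℂ →ₐ[ℂ] MvPolynomial ι ℂ).toRingHom = eval (Sum.elim x z) := by
    refine MvPolynomial.ringHom_ext (fun c => ?_) fun k => ?_
    · simp [Irp_l]
    · rcases k with k | k <;> simp [Irp_l]
  exact RingHom.congr_fun h1 F

/-- Fix the variables of the first kind. -/
private noncomputable def Irp_r {ι κ : Type} (x : ι → ℂ) :
    MvPolynomial (ι ⊕ κ) ℂ →ₐ[ℂ] MvPolynomial κ ℂ :=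
  aeval (Sum.elim (fun i => C (x i)) X)

private theorem Irp_r_eval {ι κ : Type} (z : κ → ℂ) (x : ι → ℂ) (F : MvPolynomial (ι ⊕ κ) ℂ) :
    eval z (Irp_r x F) = eval (Sum.elim x z) F := by
  have h1 : (eval z : MvPolynomial κ ℂ →+* ℂ).comp
      (Irp_r x : MvPolynomial (ι ⊕ κ) ℂ →ₐ[ℂ] MvPolynomial κ ℂ).toRingHom = eval (Sum.elim x z) := by
    refine MvPolynomial.ringHom_ext (fun c => ?_) fun k => ?_
    · simp [Irp_r]
    · rcases k with k | k <;> simp [Irp_r]
  exact RingHom.congr_fun h1 F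

theorem gIrp : StIrp := by
  intro ι κ _ _ K L hK hL
  have hmem : ∀ x ∈ K, ∀ z ∈ L, Sum.elim x z ∈ {z : ι ⊕ κ → ℂ |
      (fun i => z (Sum.inl i)) ∈ K ∧ (fun k => z (Sum.inr k)) ∈ L} := fun x hx z hz => ⟨hx, hz⟩
  refine ⟨?_, fun F G h => ?_⟩
  · obtain ⟨x, hx⟩ := hK.1
    obtain ⟨z, hz⟩ := hL.1
    exact ⟨_, hmem x hx z hz⟩
  · have hor : ∀ z ∈ L, (∀ x ∈ K, eval (Sum.elim x z) F = 0) ∨
        ∀ x ∈ K, eval (Sum.elim x z) G = 0 := by
      intro z hz
      rcases hK.2 (Irp_l z F) (Irp_l z G) (fun x hx => by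
        rw [Irp_l_eval, Irp_l_eval]; exact h _ (hmem x hx z hz)) with h1 | h1
      · exact Or.inl fun x hx => by rw [← Irp_l_eval]; exact h1 x hx
      · exact Or.inr fun x hx => by rw [← Irp_l_eval]; exact h1 x hx
    have key : (∀ x ∈ K, ∀ z ∈ L, eval (Sum.elim x z) F = 0) ∨
        ∀ x ∈ K, ∀ z ∈ L, eval (Sum.elim x z) G = 0 := by
      by_contra hc
      rw [not_or] at hc
      obtain ⟨h1, h2⟩ := hc
      push Not at h1 h2
      obtain ⟨x, hx, z, hz, hF⟩ := h1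
      obtain ⟨x', hx', z', hz', hG⟩ := h2
      rcases hL.2 (Irp_r x F) (Irp_r x' G) (fun w hw => by
        rw [Irp_r_eval, Irp_r_eval]
        rcases hor w hw with h3 | h3
        · rw [h3 x hx, zero_mul]
        · rw [h3 x' hx', mul_zero]) with h4 | h4
      · exact hF (by rw [← Irp_r_eval]; exact h4 z hz)
      · exact hG (by rw [← Irp_r_eval]; exact h4 z' hz')
    have hel : ∀ y : ι ⊕ κ → ℂ,
        Sum.elim (fun i => y (Sum.inl i)) (fun k => y (Sum.inr k)) = y := by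
      intro y
      funext j
      rcases j with j | j <;> rfl
    rcases key with h1 | h1
    · left
      rintro y ⟨hy1, hy2⟩
      rw [← hel y]
      exact h1 _ hy1 _ hy2
    · right
      rintro y ⟨hy1, hy2⟩
      rw [← hel y]
      exact h1 _ hy1 _ hy2

end Pool.Agent.Lib.MP_e005b4_ag.GP
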