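import Pool.Agent.Lib.MP_e005b4_ag.GP.Spec

/-!
# Theorem G: the dimension does not grow under linear maps
-/

set_option autoImplicit false
set_option linter.unusedSectionVars false

namespace Pool.Agent.Lib.MP_e005b4_ag.GP

open MvPolynomial Pool.Agent.Lib.MP_e005b4_ag

/-- The transcendence degree of an integral extension of a polynomial ring. -/
private theorem Le_trdeg {A : Type} [CommRing A] [IsDomain A] [Algebra ℂ A] {d : ℕ}
    (u : Fin d → A) (hu : ∀ x : A, (aeval u : MvPolynomial (Fin d) ℂ →ₐ[ℂ] A).toRingHom.IsIntegralElem x) :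
    Algebra.trdeg ℂ A ≤ d := by
  have hint : Algebra.IsIntegral (Algebra.adjoin ℂ (Set.range u)) A := by
    refine ⟨fun x => ?_⟩
    obtain ⟨p, hp1, hp2⟩ := hu x
    have hr : ∀ c : MvPolynomial (Fin d) ℂ, aeval u c ∈ Algebra.adjoin ℂ (Set.range u) :=
      fun c => by
        rw [Algebra.adjoin_range_eq_range_aeval]
        exact ⟨c, rfl⟩
    let θ : MvPolynomial (Fin d) ℂ →+* Algebra.adjoin ℂ (Set.range u) :=
      (aeval u : MvPolynomial (Fin d) ℂ →ₐ[ℂ] A).toRingHom.codRestrict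
        (Algebra.adjoin ℂ (Set.range u)) hr
    refine ⟨p.map θ, hp1.map θ, ?_⟩
    rw [Polynomial.eval₂_map]
    exact hp2
  have halg : Algebra.IsAlgebraic (Algebra.adjoin ℂ (Set.range u)) A := inferInstance
  refine (Algebra.IsAlgebraic.trdeg_le_cardinalMk ℂ (Set.range u)).trans ?_
  refine Cardinal.mk_range_le.trans ?_
  rw [Cardinal.mk_fin]

/-- The dimension does not grow under linear maps. -/
theorem gLe (hInt : StInt) (hGb : StGb) : StLe := by
  classical
  intro ι κ _ _ Z h d hZ hZi hd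
  obtain ⟨M, hM⟩ := hd
  have hS : Scl (h.mulVec '' Z) := hZ.scl.image h
  obtain ⟨e, he⟩ := exists_dim (clc (h.mulVec '' Z))
  obtain ⟨g, hg⟩ := he.1
  by_cases hed : e ≤ d
  · exact Ms.mono ⟨g, hg⟩ hed
  exfalso
  have hsurj := hGb ι (clc (h.mulVec '' Z)) e g hS.clCone.scl he hg
  have hprime := hZi.prime
  have hdom : IsDomain (MvPolynomial κ ℂ ⧸ vI Z) := Ideal.Quotient.isDomain (vI Z)
  have h1 : Algebra.trdeg ℂ (MvPolynomial κ ℂ ⧸ vI Z) ≤ d := by
    refine Le_trdeg (fun k => Ideal.Quotient.mk (vI Z) (pb M (X k))) fun x => ?_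
    have h2 : (aeval (fun k => Ideal.Quotient.mk (vI Z) (pb M (X k))) :
        MvPolynomial (Fin d) ℂ →ₐ[ℂ] MvPolynomial κ ℂ ⧸ vI Z).toRingHom =
        (Ideal.Quotient.mk (vI Z)).comp
          (pb M : MvPolynomial (Fin d) ℂ →+* MvPolynomial κ ℂ) := by
      refine MvPolynomial.ringHom_ext (fun a => ?_) fun k => ?_
      · change aeval (fun k => Ideal.Quotient.mk (vI Z) (pb M (X k))) (C a) =
          Ideal.Quotient.mk (vI Z) (pb M (C a))
        rw [aeval_C, algHom_C]
        rfl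
      · change aeval (fun k => Ideal.Quotient.mk (vI Z) (pb M (X k))) (X k) =
          Ideal.Quotient.mk (vI Z) (pb M (X k))
        rw [aeval_X]
    rw [h2]
    exact hInt κ (Fin d) Z M hZ hM x
  have h3 : AlgebraicIndependent ℂ (fun k : Fin e =>
      Ideal.Quotient.mk (vI Z) (pb h (pb g (X k)))) := by
    rw [algebraicIndependent_iff_injective_aeval, injective_iff_map_eq_zero]
    intro Q hQ
    have h4 : aeval (fun k : Fin e => Ideal.Quotient.mk (vI Z) (pb h (pb g (X k)))) Q =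
        Ideal.Quotient.mk (vI Z) (pb h (pb g Q)) := by
      have h5 : (aeval (fun k : Fin e => Ideal.Quotient.mk (vI Z) (pb h (pb g (X k)))) :
          MvPolynomial (Fin e) ℂ →ₐ[ℂ] MvPolynomial κ ℂ ⧸ vI Z) =
          ((Ideal.Quotient.mkₐ ℂ (vI Z)).comp (pb h)).comp (pb g) :=
        MvPolynomial.algHom_ext fun k => by
          rw [aeval_X]
          rfl
      rw [h5]
      rfl
    rw [h4, Ideal.Quotient.eq_zero_iff_mem, mem_vI] at hQ
    have h6 : ∀ y ∈ clc (h.mulVec '' Z), eval y (pb g Q) = 0 := hS.vanish (by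
      rintro _ ⟨z, hz, rfl⟩
      rw [← eval_pb]
      exact hQ z hz)
    refine MvPolynomial.funext fun w => ?_
    obtain ⟨y, hy, rfl⟩ := hsurj w
    rw [← eval_pb, h6 y hy, map_zero]
  have h7 := h3.cardinalMk_le_trdeg.trans h1
  rw [Cardinal.mk_fin, Nat.cast_le] at h7
  exact hed h7

end Pool.Agent.Lib.MP_e005b4_ag.GP
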