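import Pool.Agent.Lib.MP_e005b4_ag.GP.Spec

/-!
# Theorem G (general projections): one `r`
-/

set_option autoImplicit false

namespace Pool.Agent.Lib.MP_e005b4_ag.GP

open MvPolynomial Pool.Agent.Lib.MP_e005b4_ag

theorem gOne (hPow : StPow) (hChB : StChB) (hQ : StQ) (hDd : StDd) (hGa : StGa) (hC : StC) :
    StOne := by
  classical
  intro ι _ K r m hK hI
  obtain ⟨hpc, hpi⟩ := hPow ι K r hK hI
  have hS : Scl (Sr K r) := Sr_scl hK.scl r
  have hSi : Irr (Sr K r) := by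
    rw [Sr_eq]
    exact hpi.image _
  have hs : ClCone (clc (Sr K r)) := hS.clCone
  have hsi : Irr (clc (Sr K r)) := hSi.cl hS
  by_cases hA : Ms (clc (Sr K r)) m
  · obtain ⟨P1, hP1, h1⟩ := hGa ι (clc (Sr K r)) m hs hA
    have first : ∀ M : Matrix (Fin m) ι ℂ, eval (fun p => M p.1 p.2) P1 ≠ 0 →
        ((Ms (clc (Sr K r)) m → clc (Sr K r) ⊆ Sr K r) →
        clc (M.mulVec '' Sr K r) ⊆ M.mulVec '' Sr K r) := by
      intro M hM h
      have heq : clc (Sr K r) = Sr K r := Set.Subset.antisymm (h hA) (subset_clc _)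
      have h2 := hC ι (Fin m) (clc (Sr K r)) M hs (h1 M hM)
      rw [heq] at h2
      exact h2.cl
    by_cases hB : (∃ k < m, Ms (clc (Sr K r)) k) ∧ ¬ clc (Sr K r) ⊆ Sr K r
    · obtain ⟨⟨k, hk, hMk⟩, hn⟩ := hB
      obtain ⟨y, hy, hyn⟩ := Set.not_subset.1 hn
      obtain ⟨P2, hP2, h2⟩ := hDd ι (Sr K r) (clc (Sr K r)) y k m hs hsi (subset_clc _) hyn hMk hk
      refine ⟨P1 * P2, mul_ne_zero hP1 hP2, fun M hM => ?_⟩
      rw [map_mul] at hM
      refine ⟨first M (left_ne_zero_of_mul hM), fun k' _ _ _ hcl => ?_⟩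
      exact h2 M (right_ne_zero_of_mul hM) (hcl (image_clc _ M ⟨y, hy, rfl⟩))
    · refine ⟨P1, hP1, fun M hM => ⟨first M hM, fun k hk hMk hn => ?_⟩⟩
      exact absurd ⟨⟨k, hk, hMk⟩, hn⟩ hB
  · have hne : clc (Sr K r) ≠ {0} := by
      intro h0
      refine hA (Ms.mono (m := 0) ?_ (Nat.zero_le m))
      rw [h0]
      exact ⟨fun _ _ => 0, fun y hy _ => hy⟩
    have hSe := Sr_eq K r
    rw [hSe] at hne
    obtain ⟨B, hBc, hBs, hBne, hBv⟩ := hChB ι (Fin r × ι) (pw K r) (Sg r) hpc hpi hne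
    rw [← hSe] at hBs hBne hBv
    obtain ⟨P, hP, h⟩ := hQ ι (Sr K r) (clc (Sr K r)) B m hs hsi hBc hBs hBne hBv hA
    refine ⟨P, hP, fun M hM => ⟨fun _ w _ => ?_, fun k hk hMk => ?_⟩⟩
    · obtain ⟨y, hy, hyw⟩ := h M hM w
      exact ⟨y, hy, hyw⟩
    · exact absurd (hMk.mono hk.le) hA

end Pool.Agent.Lib.MP_e005b4_ag.GP
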