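import Pool.Agent.Lib.MP_e005b4_ag.GP.Spec

/-!
# Theorem G (general projections): the product of a closed cone with a line
-/

set_option autoImplicit false

namespace Pool.Agent.Lib.MP_e005b4_ag.GP

open MvPolynomial Pool.Agent.Lib.MP_e005b4_ag

private theorem Pl_univ : Irr (Set.univ : Set (Unit → ℂ)) := by
  refine ⟨⟨0, trivial⟩, fun F G h => ?_⟩
  have h1 : F * G = 0 := MvPolynomial.funext fun y => by
    rw [map_mul, map_zero]
    exact h y trivial
  rcases mul_eq_zero.1 h1 with h2 | h2
  · exact Or.inl fun y _ => by rw [h2, map_zero]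
  · exact Or.inr fun y _ => by rw [h2, map_zero]

/-- The product of a closed cone with a line. -/
theorem gPl (hIrp : StIrp) : StPl := by
  classical
  intro ι _ K hK hI
  refine ⟨⟨hK.zero, fun v hv => hK.cl fun F d hF h => ?_⟩, ⟨?_, fun F G h => ?_⟩, ?_⟩
  · have h1 := hv (rename some F) d (hF.rename_isHomogeneous) fun y hy => by
      rw [eval_rename]
      exact h _ hy
    rwa [eval_rename] at h1
  · obtain ⟨y, hy⟩ := hI.1
    exact ⟨fun o => o.elim 0 y, hy⟩
  · have hP := hIrp ι Unit K Set.univ hI Pl_univ
    let e : Option ι ≃ ι ⊕ Unit := Equiv.optionEquivSumPUnit ι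
    have he : ∀ z : ι ⊕ Unit → ℂ, (fun i => z (Sum.inl i)) ∈ K →
        z ∘ e ∈ {z : Option ι → ℂ | (fun i => z (some i)) ∈ K} := fun z hz => hz
    have key : ∀ y : Option ι → ℂ, (fun i => y (some i)) ∈ K →
        (y ∘ e.symm) ∈ {z : ι ⊕ Unit → ℂ | (fun i => z (Sum.inl i)) ∈ K ∧
          (fun k => z (Sum.inr k)) ∈ (Set.univ : Set (Unit → ℂ))} := fun y hy => ⟨hy, trivial⟩
    have hr : ∀ (H : MvPolynomial (Option ι) ℂ) (y : Option ι → ℂ),
        eval (y ∘ e.symm) (rename e H) = eval y H := by
      intro H y
      rw [eval_rename]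
      congr 1
      congr 1
      funext o
      simp
    rcases hP.2 (rename e F) (rename e G) fun z hz => by
      rw [eval_rename, eval_rename]
      exact h _ (he z hz.1) with h1 | h1
    · left
      intro y hy
      rw [← hr]
      exact h1 _ (key y hy)
    · right
      intro y hy
      rw [← hr]
      exact h1 _ (key y hy)
  · rintro d ⟨M, hM⟩
    refine ⟨Fin.cons (fun o => if o = none then 1 else 0) fun k o => o.elim 0 (M k),
      fun y hy h => ?_⟩
    have h1 : y none = 0 := by
      have := congrFun h 0
      simpa [Matrix.mulVec, dotProduct, Fintype.sum_option] using this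
    have h2 : M.mulVec (fun i => y (some i)) = 0 := by
      funext k
      have := congrFun h k.succ
      simpa [Matrix.mulVec, dotProduct, Fintype.sum_option] using this
    have h3 := hM _ hy h2
    funext o
    cases o with
    | none => exact h1
    | some i => exact congrFun h3 i

end Pool.Agent.Lib.MP_e005b4_ag.GP
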