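import Pool.Agent.Lib.MP_e005b4_ag.GP.Spec

/-!
# Theorem G (general projections): powers of closed irreducible cones
-/

set_option autoImplicit false

namespace Pool.Agent.Lib.MP_e005b4_ag.GP

open MvPolynomial Pool.Agent.Lib.MP_e005b4_ag

/-- The index map of the decomposition of the first factor. -/
private def Pow_f {ι : Type} (r : ℕ) (p : Fin (r + 1) × ι) : ι ⊕ (Fin r × ι) :=
  Fin.cases (motive := fun _ => ι ⊕ (Fin r × ι)) (Sum.inl p.2) (fun l => Sum.inr (l, p.2)) p.1

private theorem Pow_cl {ι : Type} [Fintype ι] (K : Set (ι → ℂ)) (r : ℕ) (hK : ClCone K) :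
    ClCone (pw K r) := by
  refine ⟨fun _ => hK.zero, fun v hv l => ?_⟩
  by_contra h
  obtain ⟨F, d, hF, h0, h1⟩ := hK.sep h
  have h2 := hv (rename (fun i => (l, i)) F) d hF.rename_isHomogeneous fun y hy => by
    rw [eval_rename]
    exact h0 _ (hy l)
  rw [eval_rename] at h2
  exact h1 h2

private theorem Pow_irr {ι : Type} [Fintype ι] (hIrp : StIrp) (K : Set (ι → ℂ)) (hK : Irr K)
    (r : ℕ) : Irr (pw K r) := by
  induction r with
  | zero =>
    refine ⟨⟨fun _ => 0, fun l => l.elim0⟩, fun F G h => ?_⟩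
    have h1 := h (fun _ => 0) (fun l => l.elim0)
    rcases mul_eq_zero.1 h1 with h2 | h2
    · left
      intro y _
      have : y = fun _ => 0 := funext fun p => p.1.elim0
      rw [this]
      exact h2
    · right
      intro y _
      have : y = fun _ => 0 := funext fun p => p.1.elim0
      rw [this]
      exact h2
  | succ r ih =>
    have hP := hIrp ι (Fin r × ι) K (pw K r) hK ih
    have hto : ∀ z : ι ⊕ (Fin r × ι) → ℂ, (fun i => z (Sum.inl i)) ∈ K →
        (fun k => z (Sum.inr k)) ∈ pw K r → z ∘ Pow_f r ∈ pw K (r + 1) := by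
      intro z h1 h2 l
      refine Fin.cases ?_ (fun l => ?_) l
      · exact h1
      · exact h2 l
    have hfrom : ∀ y ∈ pw K (r + 1), ∃ z : ι ⊕ (Fin r × ι) → ℂ, ((fun i => z (Sum.inl i)) ∈ K ∧
        (fun k => z (Sum.inr k)) ∈ pw K r) ∧ z ∘ Pow_f r = y := by
      intro y hy
      refine ⟨Sum.elim (fun i => y (0, i)) (fun p => y (p.1.succ, p.2)),
        ⟨hy 0, fun l => hy l.succ⟩, ?_⟩
      funext p
      obtain ⟨l, i⟩ := p
      refine Fin.cases ?_ (fun l => ?_) l
      · rfl
      · rfl
    constructor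
    · obtain ⟨z, hz⟩ := hP.1
      exact ⟨_, hto z hz.1 hz.2⟩
    · intro F G h
      rcases hP.2 (rename (Pow_f r) F) (rename (Pow_f r) G) (fun z hz => by
        rw [eval_rename, eval_rename]
        exact h _ (hto z hz.1 hz.2)) with h1 | h1
      · left
        intro y hy
        obtain ⟨z, hz, rfl⟩ := hfrom y hy
        rw [← eval_rename]
        exact h1 z hz
      · right
        intro y hy
        obtain ⟨z, hz, rfl⟩ := hfrom y hy
        rw [← eval_rename]
        exact h1 z hz

theorem gPow (hIrp : StIrp) : StPow := by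
  intro ι _ K r hK hI
  exact ⟨Pow_cl K r hK, Pow_irr hIrp K hI r⟩

end Pool.Agent.Lib.MP_e005b4_ag.GP
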