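import Pool.Agent.Lib.MP_e005b4_ag.GP.Spec

/-!
# Theorem G (general projections): Q
-/

set_option autoImplicit false

namespace Pool.Agent.Lib.MP_e005b4_ag.GP

open MvPolynomial Pool.Agent.Lib.MP_e005b4_ag

private lemma Q_exists_ne {σ : Type} {F : MvPolynomial σ ℂ} (hF : F ≠ 0) :
    ∃ g : σ → ℂ, eval g F ≠ 0 := by
  by_contra h
  push Not at h
  exact hF (MvPolynomial.funext fun x => by rw [h x, map_zero])

private lemma Q_eval_aeval {σ τ : Type} (φ : σ → MvPolynomial τ ℂ) (F : MvPolynomial σ ℂ)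
    (v : τ → ℂ) : eval v (aeval φ F) = eval (fun p => eval v (φ p)) F := by
  have h1 : (eval v : MvPolynomial τ ℂ →+* ℂ).comp
      (aeval φ : MvPolynomial σ ℂ →ₐ[ℂ] MvPolynomial τ ℂ).toRingHom =
      eval (fun p => eval v (φ p)) := by
    refine MvPolynomial.ringHom_ext (fun c => ?_) fun k => ?_
    · simp
    · simp
  exact RingHom.congr_fun h1 F

private lemma Q_eval_line {κ : Type} (a b : κ → ℂ) (F : MvPolynomial κ ℂ) (x : ℂ) :
    (aeval (fun k => Polynomial.C (a k) * Polynomial.X + Polynomial.C (b k)) F :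
      Polynomial ℂ).eval x = eval (x • a + b) F := by
  have h1 : (Polynomial.evalRingHom x).comp
      (aeval (fun k => Polynomial.C (a k) * Polynomial.X + Polynomial.C (b k)) :
        MvPolynomial κ ℂ →ₐ[ℂ] Polynomial ℂ).toRingHom = eval (x • a + b) := by
    refine MvPolynomial.ringHom_ext (fun c => ?_) fun k => ?_
    · simp
    · simp only [AlgHom.toRingHom_eq_coe, RingHom.coe_comp, RingHom.coe_coe,
        Function.comp_apply, aeval_X, Polynomial.coe_evalRingHom, Polynomial.eval_add,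
        Polynomial.eval_mul, Polynomial.eval_C, Polynomial.eval_X, eval_X, Pi.add_apply,
        Pi.smul_apply, smul_eq_mul]
      rw [mul_comm]
  exact RingHom.congr_fun h1 F

/-- A point `x ≠ 0` where `F (x a + b)` is not zero. -/
private lemma Q_line {κ : Type} (a b : κ → ℂ) (F : MvPolynomial κ ℂ) (hb : eval b F ≠ 0) :
    ∃ x : ℂ, x ≠ 0 ∧ eval (x • a + b) F ≠ 0 := by
  by_contra h
  push Not at h
  have h1 : (Polynomial.X * (aeval (fun k => Polynomial.C (a k) * Polynomial.X +
      Polynomial.C (b k)) F : Polynomial ℂ)) = 0 := by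
    refine Polynomial.funext fun x => ?_
    rw [Polynomial.eval_mul, Polynomial.eval_X, Polynomial.eval_zero, Q_eval_line]
    by_cases hx : x = 0
    · rw [hx, zero_mul]
    · rw [h x hx, mul_zero]
  rcases mul_eq_zero.mp h1 with h2 | h2
  · exact Polynomial.X_ne_zero h2
  · have h3 := Q_eval_line a b F 0
    rw [h2, Polynomial.eval_zero, zero_smul, zero_add] at h3
    exact hb h3.symm

theorem gQ (hGa : StGa) (hGb : StGb) (hDim : StDim) (hC : StC) : StQ := by
  classical
  intro ι _ S s B m hs hirr hB hBs hne hsub hm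
  obtain ⟨d, hd⟩ := exists_dim s
  have hmd : m < d := by
    by_contra h
    exact hm (hd.1.mono (not_lt.mp h))
  obtain ⟨e, rfl, hBe⟩ := hDim ι B s d hB hs hirr hBs hne hd.1
  obtain ⟨P1, hP1, hP1'⟩ := hGa ι s (e + 1) hs hd.1
  obtain ⟨P2, hP2, hP2'⟩ := hGa ι B e hB hBe
  set P2r : MvPolynomial (Fin (e + 1) × ι) ℂ := rename (Prod.map Fin.castSucc id) P2 with hP2r
  have hP2r0 : P2r ≠ 0 := by
    intro h
    apply hP2
    refine rename_injective _ (Function.Injective.prodMap (Fin.castSucc_injective e)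
      Function.injective_id) ?_
    rw [map_zero]
    exact h
  obtain ⟨g0, hg0⟩ := Q_exists_ne (mul_ne_zero hP1 hP2r0)
  set φ : Fin (e + 1) × ι → MvPolynomial (Fin m × ι) ℂ := fun p =>
    if h : (p.1 : ℕ) < m then X (⟨p.1, h⟩, p.2) else C (g0 p) with hφ
  have hev : ∀ M : Matrix (Fin m) ι ℂ, eval (fun p => M p.1 p.2) (aeval φ (P1 * P2r)) =
      eval (fun p : Fin (e + 1) × ι => if h : (p.1 : ℕ) < m then M ⟨p.1, h⟩ p.2 else g0 p)
        (P1 * P2r) := by
    intro M
    rw [Q_eval_aeval]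
    congr 2
    funext p
    simp only [hφ]
    split_ifs with h
    · rw [eval_X]
    · rw [eval_C]
  refine ⟨aeval φ (P1 * P2r), ?_, ?_⟩
  · intro h0
    have h1 := hev fun k i => g0 (⟨k, lt_trans k.2 hmd⟩, i)
    rw [h0, map_zero] at h1
    apply hg0
    rw [h1]
    congr 2
    funext p
    split_ifs with h
    · rfl
    · rfl
  · intro M hM w
    rw [hev M] at hM
    set G : Matrix (Fin (e + 1)) ι ℂ := fun k i =>
      if h : (k : ℕ) < m then M ⟨k, h⟩ i else g0 (k, i) with hG
    have hGe : (fun p : Fin (e + 1) × ι => if h : (p.1 : ℕ) < m then M ⟨p.1, h⟩ p.2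
        else g0 p) = fun p => G p.1 p.2 := by
      funext p
      rfl
    rw [hGe, map_mul] at hM
    have hM1 := left_ne_zero_of_mul hM
    have hM2 := right_ne_zero_of_mul hM
    have hG1 : ∀ y ∈ s, G.mulVec y = 0 → y = 0 := hP1' G hM1
    have hG2 : ∀ y ∈ B, Matrix.mulVec (fun (k : Fin e) i => G k.castSucc i) y = 0 → y = 0 := by
      refine hP2' (fun (k : Fin e) i => G k.castSucc i) ?_
      rw [hP2r, eval_rename] at hM2
      exact hM2
    have hcl : ClCone (G.mulVec '' B) :=
      hC ι (Fin (e + 1)) B G hB fun y hy => hG1 y (hBs hy)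
    have hu0 : (Pi.single (Fin.last e) 1 : Fin (e + 1) → ℂ) ∉ G.mulVec '' B := by
      rintro ⟨y, hy, hyu⟩
      have h1 : y = 0 := hG2 y hy (by
        funext k
        have h2 := congrFun hyu k.castSucc
        rw [Pi.single_eq_of_ne (Fin.castSucc_lt_last k).ne] at h2
        exact h2)
      rw [h1, Matrix.mulVec_zero] at hyu
      have h3 := congrFun hyu (Fin.last e)
      rw [Pi.single_eq_same] at h3
      exact zero_ne_one h3
    obtain ⟨H, D, hH, hH0, hH1⟩ := hcl.sep hu0
    set w' : Fin (e + 1) → ℂ := fun k => if h : (k : ℕ) < m then w ⟨k, h⟩ else 0 with hw'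
    obtain ⟨x, hx, hx1⟩ := Q_line w' (Pi.single (Fin.last e) 1) H hH1
    obtain ⟨y, hy, hyG⟩ := hGb ι s (e + 1) G hs.scl hd hG1
      (x⁻¹ • (x • w' + Pi.single (Fin.last e) 1))
    have hyB : y ∉ B := by
      intro h
      have h1 := hH0 _ ⟨y, h, rfl⟩
      rw [hyG, eval_smul_hom hH] at h1
      rcases mul_eq_zero.mp h1 with h2 | h2
      · exact (pow_ne_zero D (inv_ne_zero hx)) h2
      · exact hx1 h2
    refine ⟨y, hsub y hy hyB, ?_⟩
    funext k
    have hk : (k : ℕ) < e + 1 := lt_trans k.2 hmd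
    have h1 := congrFun hyG ⟨k, hk⟩
    have h2 : G.mulVec y ⟨k, hk⟩ = M.mulVec y k := by
      have : G ⟨k, hk⟩ = M k := by
        funext i
        simp only [hG]
        rw [dif_pos k.2]
      simp only [Matrix.mulVec]
      rw [this]
    have h3 : (⟨k, hk⟩ : Fin (e + 1)) ≠ Fin.last e := by
      intro h
      have := congrArg Fin.val h
      simp only [Fin.val_last] at this
      have := k.2
      omega
    rw [h2, Pi.smul_apply, Pi.add_apply, Pi.single_eq_of_ne h3, Pi.smul_apply, add_zero,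
      smul_eq_mul, smul_eq_mul, inv_mul_cancel_left₀ hx] at h1
    rw [h1]
    simp only [hw']
    rw [dif_pos k.2]

end Pool.Agent.Lib.MP_e005b4_ag.GP
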