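import Pool.Agent.Lib.MP_e005b4_ag.GP.Base

/-!
# Theorem G (general projections): statements of the modules

Theorem G of note 3645 (table notes). Each statement `StX` is proved in the module `GP/X.lean` as
`theorem gX : StX` (`gEl`, `gC`, ...); other statements used in the proof are hypotheses of that theorem,
for example `theorem gC (hEl : StEl) : StC`. All modules are independent. Basic lemmas on closed cones
are in `GP/Base.lean` (`ClCone`, `Scl`, `clc`, `Irr`, `Ms`, `IsDim`, `pw`, `Sr`, `pb`, `drop_line`, ...).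
`Ms Y m`: `m` linear forms have on the cone `Y` only the common zero `0`, so the dimension of the closed
cone `Y` is at most `m`.
-/

set_option autoImplicit false

namespace Pool.Agent.Lib.MP_e005b4_ag.GP

open MvPolynomial Pool.Agent.Lib.MP_e005b4_ag
open scoped LinearAlgebra.Projectivization

/-- **El.** Elimination. PROOF. Let `I = vI Y` (with a polynomial it contains its homogeneous
components, `Scl.hc`) and `L k 0 = ∑ i, C (eval t0 (L k i)) * X i`. The zero locus of
`I ⊔ span {L k 0}` is `{0}` or empty (`ClCone.sep`), so by the Nullstellensatz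
(`MvPolynomial.vanishingIdeal_zeroLocus_eq_radical`) some power `X i ^ N` is in it for all `i`, so all
monomials `X ^ α` with `|α| = s := N * card ι` (`s := 0` is fine if `ι` is empty) are in it:
`X ^ α = G α + ∑ k, B α k * L k 0`; taking homogeneous components of degree `s`, `G α ∈ I` and all
`B α k * L k 0` may be taken homogeneous of degree `s` (`B α k` homogeneous of degree `s - 1`; for `s = 0`
replace `s` by `1`). Let `N(t) α β` (`|α| = |β| = s`, finite index set `Finset.univ.finsuppAntidiag s`)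
be the coefficient of `X ^ β` in `G α + ∑ k, B α k * (∑ i, C (L k i (t)) * X i)`, a polynomial in `t`,
and `P = det N`. `N(t0) = 1`, so `P(t0) = 1`. If `P(t) ≠ 0` and `y ∈ Y` is a zero of all `L k (t)` then
`∑ β, N(t) α β * y ^ β = 0`, so `y ^ β = 0` for all `β` (`Matrix.eq_zero_of_mulVec_eq_zero`), so
`y i ^ s = 0`. -/
def StEl : Prop := ∀ (ι τ κ : Type) [Fintype ι] [Fintype κ] (Y : Set (ι → ℂ))
  (L : κ → ι → MvPolynomial τ ℂ) (t0 : τ → ℂ), ClCone Y →
  (∀ y ∈ Y, (∀ k, ∑ i, eval t0 (L k i) * y i = 0) → y = 0) →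
  ∃ P : MvPolynomial τ ℂ, eval t0 P ≠ 0 ∧ ∀ t, eval t P ≠ 0 →
    ∀ y ∈ Y, (∀ k, ∑ i, eval t (L k i) * y i = 0) → y = 0

/-- **C** (uses `StEl`). The image of a closed cone. PROOF. `0` is in the image. Let `w` be in the
closure of `M(Y)` and not in `M(Y)`; `w ≠ 0`. `StEl` with `τ = κ`, index set `κ × κ` and
`L (j, k) = t_j M_k - t_k M_j`, `t0 = w`: if `y ∈ Y` is a common zero at `t = w` then `M y = λ w`
(`w j ≠ 0`, `λ = (M y) j / w j`); `λ ≠ 0` would give `w = M (λ⁻¹ y) ∈ M(Y)`, so `M y = 0`, `y = 0`. So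
there is `P` with `P(w) ≠ 0`. If `Y = {0}` then `M(Y) = {0}` is closed (the coordinates vanish).
Otherwise `P` vanishes on `M(Y)`: for `t = M y`, `y ≠ 0` (or `t = 0` and any `y ≠ 0` in `Y`) `y` is a
common zero at `t`. `Scl.vanish` gives `P(w) = 0`. -/
def StC : Prop := ∀ (ι κ : Type) [Fintype ι] [Fintype κ] (Y : Set (ι → ℂ)) (M : Matrix κ ι ℂ),
  ClCone Y → (∀ y ∈ Y, M.mulVec y = 0 → y = 0) → ClCone (M.mulVec '' Y)

/-- **Ga** (uses `StEl`). Generic linear maps. PROOF. `StEl` with `τ = Fin m × ι`, `L k i = X (k, i)`,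
`t0` the matrix of `Ms`. -/
def StGa : Prop := ∀ (ι : Type) [Fintype ι] (Y : Set (ι → ℂ)) (m : ℕ), ClCone Y → Ms Y m →
  ∃ P : MvPolynomial (Fin m × ι) ℂ, P ≠ 0 ∧ ∀ M : Matrix (Fin m) ι ℂ,
    eval (fun p => M p.1 p.2) P ≠ 0 → ∀ y ∈ Y, M.mulVec y = 0 → y = 0

/-- **Gb.** PROOF. `drop_line` in `GP/Base.lean`. (Same module as `StGa`.) -/
def StGb : Prop := ∀ (ι : Type) [Fintype ι] (Y : Set (ι → ℂ)) (d : ℕ) (M : Matrix (Fin d) ι ℂ),
  Scl Y → IsDim Y d → (∀ y ∈ Y, M.mulVec y = 0 → y = 0) → ∀ w, ∃ y ∈ Y, M.mulVec y = w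

/-- **Int** (uses `StC`). The coordinate ring is integral over the subring given by a linear map without
zeros. PROOF. (1) `X i` is integral: let `M'` be the matrix with rows `M k` and `e_i` (index set
`Option κ` or `κ ⊕ Unit`). By `StC` its image is a closed cone. The vector `w = (0, 1)` is not in it
(`M y = 0` implies `y = 0`). Let `H` be homogeneous of degree `e`, zero on the image, `H(0, 1) ≠ 0`
(`ClCone.sep`). `H = ∑_j H_j(u) T ^ j` with `H_j` homogeneous of degree `e - j`, `H_e = H(0, 1)` a nonzero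
constant. Divide by it: a monic polynomial, and `∑ H_j(M y) (y i) ^ j = 0` for `y ∈ Y`. (2) The integral
elements form a subring which contains the constants and the `X i` (`MvPolynomial.induction_on`). -/
def StInt : Prop := ∀ (ι κ : Type) [Fintype ι] [Fintype κ] (Y : Set (ι → ℂ)) (M : Matrix κ ι ℂ),
  ClCone Y → (∀ y ∈ Y, M.mulVec y = 0 → y = 0) →
    ((Ideal.Quotient.mk (vI Y)).comp
      (pb M : MvPolynomial κ ℂ →+* MvPolynomial ι ℂ)).IsIntegral

/-- **Dim** (uses `StInt`). PROOF. Let `M` be as in `Ms Y d` and `F` zero on `B`, not on `Y`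
(`ClCone.sep`). In the domain `A = MvPolynomial ι ℂ ⧸ vI Y` (`Irr.prime`) the image of `F` is not zero,
integral over `MvPolynomial (Fin d) ℂ` (`StInt`) and in the ideal `(vI B).map mk`; by
`Ideal.comap_ne_bot_of_integral_mem` (with the algebra structure of the ring homomorphism) there is
`c ≠ 0` in `MvPolynomial (Fin d) ℂ` with `pb M c ∈ vI B` (`vI Y ≤ vI B`), so `c` vanishes on `M(B)`. Take
`w` with `c(w) ≠ 0` (`MvPolynomial.funext`) and use `drop_line` for `B`. -/
def StDim : Prop := ∀ (ι : Type) [Fintype ι] (B Y : Set (ι → ℂ)) (d : ℕ), ClCone B → ClCone Y →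
  Irr Y → B ⊆ Y → B ≠ Y → Ms Y d → ∃ e, d = e + 1 ∧ Ms B e

/-- **Le** (uses `StInt`, `StGb`). The dimension does not grow under linear maps. PROOF. Let
`Y = clc (h '' Z)` and `IsDim Y e` with the matrix `g` (`exists_dim`); suppose `e > d` (otherwise
`Ms.mono`). By `StGb`, `g(Y) = ℂ ^ e`. The `e` linear forms `pb (g * h) (X k)` are algebraically
independent in `A = MvPolynomial κ ℂ ⧸ vI Z`: if `Q` vanishes at them modulo `vI Z` then `pb g Q` vanishes
on `h(Z)`, so on `Y` (`Scl.vanish`), so `Q` vanishes on `ℂ ^ e`, `Q = 0`. So `e ≤ trdeg A`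
(`AlgebraicIndependent.cardinalMk_le_trdeg`). By `StInt` for the matrix of `Ms Z d`, `A` is integral
over the subalgebra generated by the images of `d` linear forms, so `trdeg A ≤ d`
(`trdeg_le_cardinalMk`, a set of at most `d` elements). -/
def StLe : Prop := ∀ (ι κ : Type) [Fintype ι] [Fintype κ] (Z : Set (κ → ℂ)) (h : Matrix ι κ ℂ)
  (d : ℕ), ClCone Z → Irr Z → Ms Z d → Ms (clc (h.mulVec '' Z)) d

/-- **ChA.** Chevalley. PROOF. As `exists_open_image` in `Lib/MP_d01072_ag/Alg.lean`, for the ring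
homomorphism `MvPolynomial ι ℂ → MvPolynomial κ ℂ ⧸ vI Z`, `F ↦ pb h F`, (the generic point is the
contraction of the zero ideal, which is prime by `Irr.prime`; a maximal ideal of the quotient gives a
point of `Z`: all `F ∈ vI Z` vanish there, use `ClCone.sep`). For `v` in the closure all polynomials
which vanish on `h(Z)` vanish at `v` (`Scl.vanish`). -/
def StChA : Prop := ∀ (ι κ : Type) [Fintype ι] [Fintype κ] (Z : Set (κ → ℂ)) (h : Matrix ι κ ℂ),
  ClCone Z → Irr Z → ∃ Q : MvPolynomial ι ℂ, (∃ v ∈ clc (h.mulVec '' Z), eval v Q ≠ 0) ∧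
    ∀ v ∈ clc (h.mulVec '' Z), eval v Q ≠ 0 → v ∈ h.mulVec '' Z

/-- **ChB** (uses `StChA`). PROOF. Let `s` be the closure. Some homogeneous component `Q_k` of `Q` does
not vanish on `s` (`exists_hc`). `B = {v ∈ s | ∀ i, v i * eval v Q_k = 0}` is a closed cone. It is not `s`:
for `k ≥ 1` a point `v ∈ s` with `Q_k(v) ≠ 0` is not `0`; for `k = 0`, `B = {0} ≠ s`. If `v ∈ s` is not in
`B` then `Q_k(v) ≠ 0`, so the polynomial `t ↦ Q(t v) = ∑ Q_j(v) t ^ j` is not zero, `Q(t v) ≠ 0` for some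
`t ≠ 0`, `t v ∈ h(Z)` and `v ∈ h(Z)`. -/
def StChB : Prop := ∀ (ι κ : Type) [Fintype ι] [Fintype κ] (Z : Set (κ → ℂ)) (h : Matrix ι κ ℂ),
  ClCone Z → Irr Z → clc (h.mulVec '' Z) ≠ {0} → ∃ B, ClCone B ∧ B ⊆ clc (h.mulVec '' Z) ∧
    B ≠ clc (h.mulVec '' Z) ∧ ∀ v ∈ clc (h.mulVec '' Z), v ∉ B → v ∈ h.mulVec '' Z

/-- **Irp.** Products. PROOF. For `F` let `A_F` be the set of the `z ∈ L` such that `F(x, z) = 0` for
all `x ∈ K`. If `F G` vanishes on the product then for every `z ∈ L` `F(·, z)` or `G(·, z)` vanishes on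
`K` (`Irr K`), so `A_F ∪ A_G = L`. If `z ∈ L` is not in `A_F` and `z' ∈ L` is not in `A_G` then take `x`,
`x'` in `K` with `F(x, z) ≠ 0`, `G(x', z') ≠ 0`; `F(x, ·) G(x', ·)` vanishes on `L = A_F ∪ A_G`, so one
of them vanishes on `L`, contradiction. -/
def StIrp : Prop := ∀ (ι κ : Type) [Fintype ι] [Fintype κ] (K : Set (ι → ℂ)) (L : Set (κ → ℂ)),
  Irr K → Irr L → Irr {z : ι ⊕ κ → ℂ | (fun i => z (Sum.inl i)) ∈ K ∧
    (fun k => z (Sum.inr k)) ∈ L}

/-- **Pow** (uses `StIrp`). PROOF. `clc`: if `z (l, ·) ∉ K` take `F` of `ClCone.sep` and rename the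
variables. `Irr`: induction on `r`; `r = 0`: one point; `pw K (r + 1)` is the image of the product of
`K` and `pw K r` under a matrix (reindexing; `Irr.image`). -/
def StPow : Prop := ∀ (ι : Type) [Fintype ι] (K : Set (ι → ℂ)) (r : ℕ), ClCone K → Irr K →
  ClCone (pw K r) ∧ Irr (pw K r)

/-- **Pl** (uses `StIrp`). The product with a line. PROOF. `clc`: as in `StPow`. `Irr`: `StIrp` with
the line `Set.univ` (`MvPolynomial.funext`) and `Irr.image`. `Ms`: add the new coordinate as a form. -/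
def StPl : Prop := ∀ (ι : Type) [Fintype ι] (K : Set (ι → ℂ)), ClCone K → Irr K →
  ClCone {z : Option ι → ℂ | (fun i => z (some i)) ∈ K} ∧
  Irr {z : Option ι → ℂ | (fun i => z (some i)) ∈ K} ∧
  ∀ d, Ms K d → Ms {z : Option ι → ℂ | (fun i => z (some i)) ∈ K} (d + 1)

/-- **Q** (uses `StGa`, `StGb`, `StDim`, `StC`). PROOF. `IsDim s d` (`exists_dim`), `d > m`
(`Ms.mono`), `d = e + 1` and `Ms B e` (`StDim`), `m ≤ e`. `P1` from `StGa` for `(s, e + 1)`, `P2` from
`StGa` for `(B, e)` with the variables renamed along `Fin.castSucc`. `P1 * P2 ≠ 0`, so it is nonzero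
at some `G0 : Matrix (Fin (e + 1)) ι ℂ` (`MvPolynomial.funext`). `P` := the polynomial in the variables
`Fin m × ι` obtained by the substitution `(k, i) ↦ X (k, i)` if `k < m`, `C (G0 k i)` otherwise; it is
nonzero at the first `m` rows of `G0`. Let `P(M) ≠ 0` and `G` = the rows of `M` and the rows `≥ m` of
`G0`. `ker G ∩ s = 0`, and the first `e` rows of `G` have only the zero `0` on `B`. `G(B)` is a closed
cone (`StC`) and the last unit vector `u0` is not in it; `H` homogeneous of degree `D`, zero on `G(B)`,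
`H(u0) ≠ 0`. Let `w'` be `w` extended by zeros. The polynomial `p(x) = H(x w' + u0)` is nonzero at
`x = 0`, so at some `x ≠ 0`; with `t = x⁻¹`: `H(w' + t u0) = t ^ D p(x) ≠ 0`. By `StGb` there is `y ∈ s`
with `G y = w' + t u0`; `y ∉ B`, so `y ∈ S`, and the first `m` coordinates say `M y = w`
(`m ≤ e`). -/
def StQ : Prop := ∀ (ι : Type) [Fintype ι] (S s B : Set (ι → ℂ)) (m : ℕ), ClCone s → Irr s →
  ClCone B → B ⊆ s → B ≠ s → (∀ v ∈ s, v ∉ B → v ∈ S) → ¬ Ms s m →
  ∃ P : MvPolynomial (Fin m × ι) ℂ, P ≠ 0 ∧ ∀ M : Matrix (Fin m) ι ℂ,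
    eval (fun p => M p.1 p.2) P ≠ 0 → ∀ w, ∃ y ∈ S, M.mulVec y = w

/-- **Dd** (uses `StPl`, `StLe`, `StGa`). PROOF. `Z = s × ℂ` (`StPl`), `h z = z ∘ some - z none • y` (a
matrix), `c = clc (h '' Z)`: `Ms c (k + 1)` by `StLe`, so `Ms c m`. `P` from `StGa` for `c`. If
`M y = M z`, `z ∈ S`, then `z - y = h (z, 1) ∈ c`, `M (z - y) = 0`, so `y = z ∈ S`. -/
def StDd : Prop := ∀ (ι : Type) [Fintype ι] (S s : Set (ι → ℂ)) (y : ι → ℂ) (k m : ℕ), ClCone s →
  Irr s → S ⊆ s → y ∉ S → Ms s k → k < m →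
  ∃ P : MvPolynomial (Fin m × ι) ℂ, P ≠ 0 ∧ ∀ M : Matrix (Fin m) ι ℂ,
    eval (fun p => M p.1 p.2) P ≠ 0 → M.mulVec y ∉ M.mulVec '' S

/-- **Spn.** PROOF. `W = span K`: every element is a combination of linearly independent elements of
`K` (at most `card ι`), put the coefficients into the elements, pad by `0`. Second part: a linear
subspace is the set of the common zeros of linear forms (forms of degree one), e.g. by
`Submodule.exists_le_ker_of_notMem` or a dual basis. -/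
def StSpn : Prop := (∀ (ι : Type) [Fintype ι] (K : Set (ι → ℂ)) (r : ℕ), Scl K →
    Fintype.card ι ≤ r → ∃ W : Submodule ℂ (ι → ℂ), Sr K r = W) ∧
  ∀ (ι : Type) [Fintype ι] (W : Submodule ℂ (ι → ℂ)), clc (W : Set (ι → ℂ)) ⊆ W

/-- **One** (uses `StPow`, `StChB`, `StQ`, `StDd`, `StGa`, `StC`). One `r`. PROOF. `S = Sr K r`,
`s = clc S`: `Sr_eq`, `StPow`, `Irr.image`, `Irr.cl`, `Scl.clCone`. Case A: `Ms s m`. `P1` from `StGa` for
`s`. First claim: if `s ⊆ S` then `M(S) = M(s)` is closed (`StC`). Second claim: if there are `k < m` with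
`Ms s k` and `y ∈ s` not in `S` take `P2` from `StDd` for them, `P = P1 * P2` (otherwise `P = P1`):
`M y` is in the closure (`image_clc`) and not in `M(S)`. Case B: not `Ms s m`. Then `s ≠ {0}`; `B` from
`StChB` (`Z = pw K r`, `h = Sg r`) and `P` from `StQ`: `M(S)` is everything. `Ms s k` is excluded by
`Ms.mono`. -/
def StOne : Prop := ∀ (ι : Type) [Fintype ι] (K : Set (ι → ℂ)) (r m : ℕ), ClCone K → Irr K →
  ∃ P : MvPolynomial (Fin m × ι) ℂ, P ≠ 0 ∧ ∀ M : Matrix (Fin m) ι ℂ,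
    eval (fun p => M p.1 p.2) P ≠ 0 →
      ((Ms (clc (Sr K r)) m → clc (Sr K r) ⊆ Sr K r) →
        clc (M.mulVec '' Sr K r) ⊆ M.mulVec '' Sr K r) ∧
      ∀ k < m, Ms (clc (Sr K r)) k → ¬ clc (Sr K r) ⊆ Sr K r →
        ¬ clc (M.mulVec '' Sr K r) ⊆ M.mulVec '' Sr K r

/-- **All** (uses `StOne`, `StSpn`). All `r` at once. PROOF. The product of the polynomials of `StOne` for
`r ≤ card ι`; for `r ≥ card ι` `Sr K r` and its image are linear subspaces (`Submodule.map`), so
closed. -/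
def StAll : Prop := ∀ (ι : Type) [Fintype ι] (K : Set (ι → ℂ)) (m : ℕ), ClCone K → Irr K →
  ∃ P : MvPolynomial (Fin m × ι) ℂ, P ≠ 0 ∧ ∀ M : Matrix (Fin m) ι ℂ,
    eval (fun p => M p.1 p.2) P ≠ 0 → ∀ r,
      ((Ms (clc (Sr K r)) m → clc (Sr K r) ⊆ Sr K r) →
        clc (M.mulVec '' Sr K r) ⊆ M.mulVec '' Sr K r) ∧
      ∀ k < m, Ms (clc (Sr K r)) k → ¬ clc (Sr K r) ⊆ Sr K r →
        ¬ clc (M.mulVec '' Sr K r) ⊆ M.mulVec '' Sr K r

/-! ### From projective varieties to cones -/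

/-- **Ba.** PROOF. `ClCone`: as `mem_cone_of_vIdeal` in Basic.lean. `Irr`: `vIdeal_prime` in Ver/Gen.lean
(`vIdeal X = vI (cone X)`). Converse: the forms vanishing on `Y` (of any degree) define `Y`: if all
of them vanish at `p.rep` then `p.rep ∈ clc (cone Y)` (`vanish_on_cone`). `IsIrred` is a special case of
`Irr` (`rep_mem_cone`, `vanish_on_cone`). -/
def StBa : Prop := ∀ (ι : Type) [Fintype ι] (Y : Set (PSpace ι)), Y.Nonempty →
  (IsProjectiveVariety Y ↔ ClCone (cone Y) ∧ Irr (cone Y))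

/-- **Bb.** PROOF. `r = 0`: both are `{0}` (`secantSet_zero`, `secantVariety_zero`; for the closure use
the forms `X i`). `r ≥ 1`: `exists_sum_of_mem_secantSet`, `mem_secantSet_of_sum'` and scaling; a form
vanishes on `secantSet X r` if and only if it vanishes on `Sr (cone X) r` (`vanish_on_cone`). -/
def StBb : Prop := ∀ (ι : Type) [Fintype ι] (X : Set (PSpace ι)), X.Nonempty → ∀ r,
  cone (secantSet X r) = Sr (cone X) r ∧ cone (secantVariety X r) = clc (Sr (cone X) r)

/-- **Bc** (uses `StBb`). PROOF. First part: `cone Y ⊆ cone Y'` if and only if `Y ⊆ Y'`, so the right hand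
side says `secantVariety Y r ⊆ secantSet Y r`; `rank_eq_of_secant`; conversely `xRank_le_iff`,
`xBorderRank_le_iff`. Second part: `p.rep` runs, up to nonzero factors, over the nonzero elements of
`cone Y`. Third part: clear. -/
def StBc : Prop := (∀ (ι : Type) [Fintype ι] (Y : Set (PSpace ι)), Y.Nonempty →
    ((∀ q, xRank Y q = xBorderRank Y q) ↔ ∀ r, clc (Sr (cone Y) r) ⊆ Sr (cone Y) r)) ∧
  (∀ (ι : Type) [Fintype ι] (Y : Set (PSpace ι)) (m : ℕ), DimLT Y m ↔ Ms (cone Y) m) ∧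
  ∀ (ι : Type) [Fintype ι] (X : Set (PSpace ι)) (m : ℕ) (M : Matrix (Fin m) ι ℂ), X.Nonempty →
    (∀ y ∈ cone X, M.mulVec y = 0 → y = 0) →
      (proj M X).Nonempty ∧ cone (proj M X) = M.mulVec '' cone X

/-- **Main** (uses `StGa`, `StC`, `StAll`, `StBa`, `StBb`, `StBc`). The theorem. PROOF. `K = cone X`;
`P` = the product of the polynomials of `StGa` for `(K, m)` (`DimLT X m`) and of `StAll`. `proj M X` has
the cone `M(K)`, closed by `StC` and irreducible by `Irr.image`. `Sr (M(K)) r = M(Sr K r)` (`Sr_image`).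
`secantVariety X r ⊆ secantSet X r` if and only if `clc (Sr K r) ⊆ Sr K r` (`StBb`). -/
def StGM : Prop := ∀ (ι : Type) [Fintype ι] (X : Set (PSpace ι)) (m : ℕ), IsProjectiveVariety X →
  DimLT X m → ∃ P : MvPolynomial (Fin m × ι) ℂ, P ≠ 0 ∧ ∀ M : Matrix (Fin m) ι ℂ,
    eval (fun p => M p.1 p.2) P ≠ 0 →
      (∀ p ∈ X, M.mulVec p.rep ≠ 0) ∧ IsProjectiveVariety (proj M X) ∧
      ((∀ r, DimLT (secantVariety X r) m → secantVariety X r ⊆ secantSet X r) →
        ∀ q, xRank (proj M X) q = xBorderRank (proj M X) q) ∧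
      ∀ r k, k < m → DimLT (secantVariety X r) k → ¬ secantVariety X r ⊆ secantSet X r →
        ¬ ∀ q, xRank (proj M X) q = xBorderRank (proj M X) q

end Pool.Agent.Lib.MP_e005b4_ag.GP
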