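import Pool.Agent.Lib.MP_e005b4_ag.GP.Spec

/-!
# StSpn: sums of many elements of a cone, and linear subspaces
-/

set_option autoImplicit false

namespace Pool.Agent.Lib.MP_e005b4_ag.GP

open MvPolynomial Pool.Agent.Lib.MP_e005b4_ag

private theorem Spn_fst {ι : Type} [Fintype ι] (K : Set (ι → ℂ)) (r : ℕ) (hK : Scl K)
    (hr : Fintype.card ι ≤ r) : Sr K r = (Submodule.span ℂ K : Submodule ℂ (ι → ℂ)) := by
  classical
  ext v
  constructor
  · rintro ⟨z, hz, rfl⟩
    exact Submodule.sum_mem _ fun l _ => Submodule.subset_span (hz l)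
  · intro hv
    obtain ⟨b, hbK, hbs, hb⟩ := exists_linearIndependent ℂ K
    have : Fintype b := hb.setFinite.fintype
    have hcard : Fintype.card b ≤ Fintype.card (Fin r) := by
      have h1 := hb.fintype_card_le_finrank
      rw [Module.finrank_fintype_fun_eq_card] at h1
      rw [Fintype.card_fin]
      exact h1.trans hr
    obtain ⟨f⟩ := Function.Embedding.nonempty_of_card_le hcard
    have hv' : v ∈ Submodule.span ℂ (Set.range (Subtype.val : b → ι → ℂ)) := by
      rw [Subtype.range_coe_subtype, Set.ofPred_mem_eq, hbs]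
      exact hv
    obtain ⟨c, hc⟩ := (Submodule.mem_span_range_iff_exists_fun ℂ).1 hv'
    refine ⟨Function.extend f (fun x : b => c x • (x : ι → ℂ)) 0, fun l => ?_, ?_⟩
    · by_cases hl : ∃ x, f x = l
      · obtain ⟨x, rfl⟩ := hl
        rw [f.injective.extend_apply]
        exact hK.smul _ (hbK x.2) _
      · rw [Function.extend_apply' _ _ _ hl]
        exact hK.zero
    · rw [← hc]
      refine Fintype.sum_of_injective f f.injective _ _ (fun l hl => ?_) fun x => ?_
      · rw [Function.extend_apply' _ _ _ hl]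
        rfl
      · rw [f.injective.extend_apply]

private theorem Spn_snd {ι : Type} [Fintype ι] (W : Submodule ℂ (ι → ℂ)) :
    clc (W : Set (ι → ℂ)) ⊆ W := by
  classical
  intro v hv
  by_contra hvW
  obtain ⟨f, hfv, hfW⟩ := Submodule.exists_le_ker_of_notMem hvW
  have h1 : ∀ y : ι → ℂ, ∑ i, f (Pi.single i 1) * y i = f y := by
    intro y
    conv_rhs => rw [← Finset.univ_sum_single y, map_sum]
    refine Finset.sum_congr rfl fun i _ => ?_
    have h2 : (Pi.single i (y i) : ι → ℂ) = y i • Pi.single i 1 := by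
      rw [← Pi.single_smul, smul_eq_mul, mul_one]
    rw [h2, map_smul, smul_eq_mul, mul_comm]
  have h3 := hv (∑ i, C (f (Pi.single i 1)) * X i) 1 (lin_hom _) fun y hy => by
    rw [eval_lin, h1 y]
    exact hfW hy
  rw [eval_lin, h1 v] at h3
  exact hfv h3

theorem gSpn : StSpn :=
  ⟨fun _ _ K r hK hr => ⟨Submodule.span ℂ K, Spn_fst K r hK hr⟩, fun _ _ W => Spn_snd W⟩

end Pool.Agent.Lib.MP_e005b4_ag.GP
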